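import Pool.Agent.H914R2.KDesc2

/-!
# Projectors to the outer degrees
-/

open Polynomial Finset

namespace Pool.Agent.Q67.Det

open Pool.Agent.H914

variable {K : Type*} [Field K] [CharZero K] {V : Type*} [AddCommGroup V] [Module K V]
  {gr : ℕ → Submodule K V} {n : ℕ} {L : Module.End K V}

/-- If there are operators in the algebra inverting the powers `L ^ c` for `c > c₀`, then the
projectors to the degrees `n - c` and `n + c`, `c > c₀`, are in the algebra. -/
lemma proj_mem_of_theta {R : ℤ → Module.End K V → Prop} (hR : OpAlg gr R)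
    (h : DirectSum.IsInternal gr) (hbd : ∀ i, 2 * n + 1 ≤ i → gr i = ⊥)
    (hL : R 1 L) (hHL : HardLef gr n L) {c₀ : ℕ}
    (hθ0 : ∀ c, c₀ < c → c ≤ n → ∃ θ, R (-c) θ ∧ ∀ a ∈ gr (n - c), θ ((L ^ c) a) = a) :
    ∀ m ≤ n, ∀ c, c + m = n → c₀ < c → R 0 (proj h (n - c)) ∧ R 0 (proj h (n + c)) := by
  have hLh : IsHom gr 2 L := by simpa using hR.hom hL
  intro m
  induction m using Nat.strong_induction_on with
  | _ m ih =>
    intro hm c hc hc₀
    obtain ⟨θ, hθR, hθ⟩ := hθ0 c hc₀ (by omega)
    -- the truncated inverse
    set A : Module.End K V := 1 - ∑ l ∈ range m, proj h l with hA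
    set B : Module.End K V := 1 - ∑ l ∈ range m, proj h (2 * n - l) with hB
    have hAR : R 0 A := by
      apply hR.sub hR.one
      apply hR.sum
      intro l hl
      rw [Finset.mem_range] at hl
      have := (ih l hl (by omega) (n - l) (by omega) (by omega)).1
      rwa [show n - (n - l) = l by omega] at this
    have hBR : R 0 B := by
      apply hR.sub hR.one
      apply hR.sum
      intro l hl
      rw [Finset.mem_range] at hl
      have := (ih l hl (by omega) (n - l) (by omega) (by omega)).2
      rwa [show n + (n - l) = 2 * n - l by omega] at this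
    set T := A * θ * B with hT
    have hTR : R (-c) T := hR.cast (hR.mul (hR.mul hAR hθR) hBR) (by ring)
    have hAlow : ∀ l < m, ∀ a ∈ gr l, A a = 0 := by
      intro l hl a ha
      rw [hA, LinearMap.sub_apply, Module.End.one_apply, LinearMap.sum_apply,
        Finset.sum_eq_single l, proj_same h ha, sub_self]
      · intro l' _ hl'; exact proj_ne h ha (Ne.symm hl')
      · intro h'; exact absurd (Finset.mem_range.2 hl) h'
    have hAhigh : ∀ l, m ≤ l → ∀ a ∈ gr l, A a = a := by
      intro l hl a ha
      rw [hA, LinearMap.sub_apply, Module.End.one_apply, LinearMap.sum_apply,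
        Finset.sum_eq_zero, sub_zero]
      intro l' hl'
      rw [Finset.mem_range] at hl'
      exact proj_ne h ha (by omega)
    have hBhigh : ∀ l, 2 * n - m < l → ∀ a ∈ gr l, B a = 0 := by
      intro l hl a ha
      by_cases hl2 : 2 * n < l
      · rw [hbd l (by omega)] at ha
        rw [(Submodule.mem_bot _).1 ha, map_zero]
      · rw [hB, LinearMap.sub_apply, Module.End.one_apply, LinearMap.sum_apply,
          Finset.sum_eq_single (2 * n - l), show 2 * n - (2 * n - l) = l by omega,
          proj_same h ha, sub_self]
        · intro l' hl' hne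
          rw [Finset.mem_range] at hl'
          exact proj_ne h ha (by omega)
        · intro h'; exact absurd (Finset.mem_range.2 (by omega)) h'
    have hBlow : ∀ l ≤ 2 * n - m, ∀ a ∈ gr l, B a = a := by
      intro l hl a ha
      rw [hB, LinearMap.sub_apply, Module.End.one_apply, LinearMap.sum_apply,
        Finset.sum_eq_zero, sub_zero]
      intro l' hl'
      rw [Finset.mem_range] at hl'
      exact proj_ne h ha (by omega)
    -- `T` is supported in degree `n + c`
    have hTsupp : ∀ l, l ≠ n + c → ∀ a ∈ gr l, T a = 0 := by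
      intro l hl a ha
      rw [hT, Module.End.mul_apply, Module.End.mul_apply]
      by_cases h1 : 2 * n - m < l
      · rw [hBhigh l h1 a ha, map_zero, map_zero]
      · rw [hBlow l (by omega) a ha]
        have h2 := hR.hom hθR l a (by rw [grZ_natCast]; exact ha)
        by_cases h3 : 2 * c ≤ l
        · rw [show (l : ℤ) + 2 * -(c : ℤ) = ((l - 2 * c : ℕ) : ℤ) by omega, grZ_natCast] at h2
          exact hAlow _ (by omega) _ h2
        · rw [grZ_of_neg (by omega)] at h2
          rw [(Submodule.mem_bot _).1 h2, map_zero]
    have hTinv : ∀ a ∈ gr (n - c), T ((L ^ c) a) = a := by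
      intro a ha
      have h1 := pow_L_mem hLh ha c
      rw [hT, Module.End.mul_apply, Module.End.mul_apply, hBlow _ (by omega) _ h1,
        hθ a ha, hAhigh _ (by omega) a ha]
    constructor
    · have e : proj h (n - c) = T * L ^ c := by
        apply gr_ext h
        intro l a ha
        rw [Module.End.mul_apply]
        by_cases hl : l = n - c
        · subst hl
          rw [proj_same h ha, hTinv a ha]
        · rw [proj_ne h ha hl, hTsupp (l + 2 * c) (by omega) _ (pow_L_mem hLh ha c)]
      rw [e]
      exact hR.cast (hR.mul hTR (hR.pow hL c)) (by ring)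
    · have e : proj h (n + c) = L ^ c * T := by
        apply gr_ext h
        intro l a ha
        rw [Module.End.mul_apply]
        by_cases hl : l = n + c
        · subst hl
          rw [proj_same h ha]
          obtain ⟨b, hb, hb'⟩ := (hHL (n - c) (by omega)).2 a
            (by rw [show 2 * n - (n - c) = n + c by omega]; exact ha)
          rw [show n - (n - c) = c by omega] at hb'
          rw [← hb', hTinv b hb]
        · rw [proj_ne h ha hl, hTsupp l hl a ha, map_zero]
      rw [e]
      exact hR.cast (hR.mul (hR.pow hL c) hTR) (by ring)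

/-- The operator which kills the degrees below `d` and is the identity in the degrees from `d`
on. -/
lemma exists_cut {R : ℤ → Module.End K V → Prop} (hR : OpAlg gr R)
    (h : DirectSum.IsInternal gr) (hbd : ∀ i, 2 * n + 1 ≤ i → gr i = ⊥)
    (hL : R 1 L) (hHL : HardLef gr n L) {c₀ : ℕ} (hc₀ : c₀ ≤ n)
    (hθ0 : ∀ c, c₀ < c → c ≤ n → ∃ θ, R (-c) θ ∧ ∀ a ∈ gr (n - c), θ ((L ^ c) a) = a) :
    ∃ φ, R 0 φ ∧ (∀ i < n - c₀, ∀ x ∈ gr i, φ x = 0) ∧ ∀ x ∈ gr (n - c₀), φ x = x := by
  refine ⟨1 - ∑ l ∈ range (n - c₀), proj h l, ?_, ?_, ?_⟩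
  · apply hR.sub hR.one
    apply hR.sum
    intro l hl
    rw [Finset.mem_range] at hl
    have := (proj_mem_of_theta hR h hbd hL hHL hθ0 l (by omega) (n - l) (by omega) (by omega)).1
    rwa [show n - (n - l) = l by omega] at this
  · intro l hl a ha
    rw [LinearMap.sub_apply, Module.End.one_apply, LinearMap.sum_apply,
      Finset.sum_eq_single l, proj_same h ha, sub_self]
    · intro l' _ hl'; exact proj_ne h ha (Ne.symm hl')
    · intro h'; exact absurd (Finset.mem_range.2 hl) h'
  · intro a ha
    rw [LinearMap.sub_apply, Module.End.one_apply, LinearMap.sum_apply,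
      Finset.sum_eq_zero, sub_zero]
    intro l' hl'
    rw [Finset.mem_range] at hl'
    exact proj_ne h ha (by omega)

end Pool.Agent.Q67.Det
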