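import Pool.Agent.Q67.Det.Inj
import Pool.Agent.Q67.Det.Trunc
import Pool.Agent.H914R2.KLef

/-!
# The determinant criterion for the Lefschetz standard conjecture
-/

open CategoryTheory AlgebraicGeometry

universe u v

namespace Pool.Agent.Q67.Det

open Pool.Agent.H914 Pool.Agent.H914.VarClass Pool.Agent.H914.VarClass.Obj
  Pool.Agent.H914.WeilCohomology Pool.Agent.Y133.Half Pool.Agent.H281R3.HT
  Pool.Agent.W536.RR

variable {k : Type u} [Field k] {𝒱 : VarClass k} {ops : CycleOps 𝒱}
  {W : WeilCohomology.{u, v} ops} {X Y Z P Q : 𝒱.Obj}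

lemma span_le_alg {q : ℤ} {c : W.H X} (hc : c ∈ spanCycles W X q) : c ∈ (algSys W).C X := by
  change c ∈ algSpan W X
  induction hc using Submodule.span_induction with
  | mem x hx =>
    obtain ⟨p, _, z, hz, rfl⟩ := hx
    exact cl_mem_algSpan hz
  | zero => exact Submodule.zero_mem _
  | add x y _ _ hx hy => exact Submodule.add_mem _ hx hy
  | smul r x _ hx => exact Submodule.smul_mem _ _ hx

lemma KOp_le {d : ℤ} {φ : W.H X →ₗ[W.K] W.H Y} (hφ : φ ∈ KOp W X Y d) :
    φ ∈ (algSys W).Op X Y := by
  obtain ⟨γ, hγ, rfl⟩ := mem_KOp_iff.1 hφ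
  exact Sys.Op.corr (span_le_alg hγ)

lemma pow_cl_mem {D : X.Cycles} (hD : X.IsCyc 1 D) (c : ℕ) : (W.cl X D) ^ c ∈ W.gr X (2 * c) := by
  induction c with
  | zero => rw [pow_zero]; exact W.one_mem X
  | succ c ih =>
    rw [pow_succ]
    have := W.mul_mem ih (W.cl_mem hD)
    rwa [show 2 * c + 2 * 1 = 2 * (c + 1) by ring] at this

lemma pow_cl_alg {D : X.Cycles} (hD : X.IsCyc 1 D) (c : ℕ) :
    (W.cl X D) ^ c ∈ (algSys W).C X := by
  induction c with
  | zero => rw [pow_zero]; exact (algSys W).one X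
  | succ c ih => rw [pow_succ]; exact (algSys W).mul ih (cl_mem_algSpan hD)

lemma mulLeft_pow (a : W.H X) (c : ℕ) (x : W.H X) : ((LinearMap.mulLeft W.K a) ^ c) x = a ^ c * x := by
  rw [LinearMap.pow_mulLeft, LinearMap.mulLeft_apply]

/-- From determinant classes to `SpanInjective`. -/
theorem spanInjective_of_det {D : X.Cycles} (hD : X.IsCyc 1 D) (hHL : HardLefschetz W X D) {c : ℕ}
    (hc : c ≤ X.dim) (h : DetAlgebraic W X c) : SpanInjective W X c := by
  classical
  set d := X.dim - c with hd
  -- a basis of `H^(n-c)`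
  rcases Nat.eq_zero_or_pos (Module.finrank W.K (W.gr X d)) with h0 | hpos
  · have h1 : W.gr X d = ⊥ := Submodule.finrank_eq_zero.1 h0
    refine ⟨0, Submodule.zero_mem _, fun x hx _ => ?_⟩
    obtain ⟨a, ha, ha'⟩ := (hHL d (by omega)).2 x
      (by rw [show 2 * X.dim - d = X.dim + c by omega]; exact hx)
    rw [h1] at ha
    rw [(Submodule.mem_bot _).1 ha, map_zero] at ha'
    exact ha'.symm
  · obtain ⟨m, hm⟩ : ∃ m, Module.finrank W.K (W.gr X d) = m + 1 := ⟨_, (Nat.succ_pred_eq_of_pos hpos).symm⟩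
    let b : Module.Basis (Fin (m + 1)) W.K (W.gr X d) := Module.finBasisOfFinrankEq _ _ hm
    have hb : IsBasisOf W X d (fun i => (b i : W.H X)) := by
      refine ⟨b.linearIndependent.map' (W.gr X d).subtype (W.gr X d).ker_subtype, ?_⟩
      have h1 : (Set.range fun i => (b i : W.H X)) = (W.gr X d).subtype '' Set.range b := by
        rw [← Set.range_comp]; rfl
      rw [h1, Submodule.span_image, b.span_eq, Submodule.map_top, Submodule.range_subtype]
    have hdet := h m _ hb
    have hinj : ∀ a ∈ W.gr X (X.dim - c), a * (W.cl X D) ^ c = 0 → a = 0 := by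
      intro a ha h0
      refine (hHL (X.dim - c) (by omega)).1 a ha ?_
      rw [show X.dim - (X.dim - c) = c by omega, mulLeft_pow, even_comm W (pow_cl_mem hD c)]
      exact h0
    obtain ⟨γ, hγ, hγ', hγi⟩ := inj_of_det (T := algSys W) (pow_cl_alg hD c) hc (pow_cl_mem hD c)
      hinj hb (span_le_alg hdet)
    refine ⟨γ, ?_, hγi⟩
    have := spanCycles_of_algSpan hγ hγ'
    rwa [Nat.cast_sub hc] at this

/-- The determinant classes are algebraic if they have non-zero periods. -/
theorem detAlgebraic_of_period {D : X.Cycles} (hD : X.IsCyc 1 D) (hHL : HardLefschetz W X D) {c : ℕ}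
    (hc : c ≤ X.dim) (hprev : ∀ c', c < c' → c' ≤ X.dim → SpanInjective W X c')
    (h : DetPeriod W X c) : DetAlgebraic W X c := by
  intro m e he
  have hR := (rop_opAlg (W := W) (X := X)).kspan
  have hLK : LinearMap.mulLeft W.K (W.cl X D) ∈ KS (ROp W X) 1 :=
    Submodule.subset_span (rop_mulLeft hD)
  obtain ⟨φ, hφ, hlow, hmid⟩ := exists_cut hR (W.isInternal X) W_hbd hLK hHL hc (by
    intro c' hc1 hc2
    obtain ⟨γ, hγ, hγi⟩ := hprev c' hc1 hc2
    exact rop_opAlg.exists_theta_of_inj hLK hHL hc2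
      (mem_KS_iff.2 (mem_KOp_iff.2 ⟨γ, hγ, rfl⟩)) hγi)
  -- the dual basis
  set f : Fin (m + 1) → W.H X := fun i => (W.cl X D) ^ c * e i with hf
  have hfm : ∀ i, f i ∈ W.gr X (X.dim + c) := by
    intro i
    have := W.mul_mem (pow_cl_mem (W := W) hD c) (he.mem i)
    rwa [show 2 * c + (X.dim - c) = X.dim + c by omega] at this
  have hfb : IsBasisOf W X (X.dim + c) f := by
    constructor
    · rw [Fintype.linearIndependent_iff]
      intro g hg
      have h1 : (W.cl X D) ^ c * ∑ i, g i • e i = 0 := by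
        rw [Finset.mul_sum, ← hg]
        exact Finset.sum_congr rfl fun i _ => by rw [mul_smul_comm]
      have h2 : ∑ i, g i • e i = 0 := by
        refine (hHL (X.dim - c) (by omega)).1 _
          (Submodule.sum_mem _ fun i _ => Submodule.smul_mem _ _ (he.mem i)) ?_
        rw [show X.dim - (X.dim - c) = c by omega, mulLeft_pow]
        exact h1
      exact Fintype.linearIndependent_iff.1 he.1 g h2
    · apply le_antisymm
      · rw [Submodule.span_le]
        rintro _ ⟨i, rfl⟩
        exact hfm i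
      · intro x hx
        obtain ⟨a, ha, ha'⟩ := (hHL (X.dim - c) (by omega)).2 x
          (by rw [show 2 * X.dim - (X.dim - c) = X.dim + c by omega]; exact hx)
        rw [show X.dim - (X.dim - c) = c by omega, mulLeft_pow] at ha'
        rw [← ha']
        rw [← he.2] at ha
        clear ha'
        induction ha using Submodule.span_induction with
        | mem a ha => obtain ⟨i, rfl⟩ := ha; exact Submodule.subset_span ⟨i, rfl⟩
        | zero => rw [mul_zero]; exact Submodule.zero_mem _
        | add a b _ _ ha hb => rw [mul_add]; exact Submodule.add_mem _ ha hb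
        | smul r a _ ha => rw [mul_smul_comm]; exact Submodule.smul_mem _ _ ha
  obtain ⟨z, hz, hper⟩ := h m f hfb
  have h1 := det_mem_of_period (T := algSys W) (KOp_le (mem_KS_iff.1 hφ)) hlow hmid
    (cl_mem_algSpan hz) (W.cl_mem hz) (d' := X.dim + c) (by omega) hfm hper he
  have h2 : xp W (detCl W X m e) (detCl W X m e) ∈
      W.gr ((pw X m).prod (pw X m)) (2 * ((m + 1) * (X.dim - c))) := by
    rw [two_mul]
    exact W.mul_mem (W.map_mem _ (detCl_gr he.mem)) (W.map_mem _ (detCl_gr he.mem))
  exact spanCycles_of_algSpan h1 h2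

/-- The trace of the operator given by a class, in terms of the class. -/
lemma tr_corr_eq (γ : W.H (P.prod Q)) (a : W.H P) (b : W.H Q) :
    W.tr Q (W.corr γ a * b) = W.tr (P.prod Q) (γ * xp W a b) := by
  rw [corr_apply, W.tr_push, xp, mul_assoc]

/-- The determinant classes have non-zero periods under the Lefschetz standard conjecture. -/
theorem detPeriod_of_inj {c : ℕ} (hc : c ≤ X.dim) {ν : W.H X →ₗ[W.K] W.H X}
    (hν : ν ∈ KOp W X X (-c)) (hinj : ∀ a ∈ W.gr X (X.dim + c), ν a = 0 → a = 0) :
    DetPeriod W X c := by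
  intro m f hf
  have hνm : ∀ i, ν (f i) ∈ W.gr X (X.dim - c) := by
    intro i
    have h1 := KOp.isHom hν (X.dim + c : ℕ) (f i) (by rw [grZ_natCast]; exact hf.mem i)
    rwa [show ((X.dim + c : ℕ) : ℤ) + 2 * (-c : ℤ) = ((X.dim - c : ℕ) : ℤ) by omega,
      grZ_natCast] at h1
  have hνl : LinearIndependent W.K (fun i => ν (f i)) := by
    rw [Fintype.linearIndependent_iff]
    intro g hg
    have h1 : ν (∑ i, g i • f i) = 0 := by
      rw [map_sum, ← hg]
      exact Finset.sum_congr rfl fun i _ => by rw [map_smul]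
    exact Fintype.linearIndependent_iff.1 hf.1 g
      (hinj _ (Submodule.sum_mem _ fun i _ => Submodule.smul_mem _ _ (hf.mem i)) h1)
  obtain ⟨G, hG, hGc⟩ := Sys.mem_Op.1 (powOp_mem (algSys W) (KOp_le hν) m)
  have hper : W.tr _ (G * xp W (detCl W X m f) (detCl W X m f)) ≠ 0 := by
    rw [← tr_corr_eq, hGc]
    have h1 : powOp W X ν m (detCl W X m f) = detCl W X m (fun i => ν (f i)) := by
      rw [detCl_eq, detCl_eq, map_sum]
      refine Finset.sum_congr rfl fun σ _ => ?_
      rw [map_smul, powOp_ten]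
      rfl
    rw [h1, tr_det_det hνm hf.mem, tr_ten_det hνm hf.mem]
    have h6 : (((m + 1).factorial : ℕ) : W.K) ≠ 0 := Nat.cast_ne_zero.2 (Nat.factorial_ne_zero _)
    exact mul_ne_zero h6 (mul_ne_zero (pow_ne_zero _ (by norm_num))
      (pairM_det_ne (by omega) hνm hνl hf))
  by_contra hcon
  push Not at hcon
  apply hper
  change G ∈ algSpan W _ at hG
  refine algSpan_induction (p := fun G => W.tr _ (G * xp W (detCl W X m f) (detCl W X m f)) = 0)
    ?_ ?_ ?_ ?_ hG
  · rw [zero_mul, map_zero]
  · intro a b ha hb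
    rw [add_mul, map_add, ha, hb, add_zero]
  · intro t a ha
    rw [smul_mul_assoc, map_smul, ha, smul_zero]
  · intro j z hz
    by_cases hj : j = (m + 1) * (X.dim - c)
    · subst hj
      exact hcon z hz
    · have h2 : xp W (detCl W X m f) (detCl W X m f) ∈
          W.gr ((pw X m).prod (pw X m)) (2 * ((m + 1) * (X.dim + c))) := by
        rw [two_mul]
        exact W.mul_mem (W.map_mem _ (detCl_gr hf.mem)) (W.map_mem _ (detCl_gr hf.mem))
      apply W.tr_eq_zero (W.mul_mem (W.cl_mem hz) h2)
      have hdim : ∀ m, (pw X m).dim = (m + 1) * X.dim := by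
        intro m
        induction m with
        | zero => simp [pw]
        | succ m ih => rw [pw, dim_prod, ih]; ring
      rw [dim_prod, hdim]
      intro h3
      apply hj
      zify [hc] at h3 ⊢
      linarith

/-- **The determinant criterion for the Lefschetz standard conjecture.** -/
theorem det_tfae {D : X.Cycles} (hD : X.IsCyc 1 D) (hHL : HardLefschetz W X D) :
    List.TFAE [LefschetzB W X D,
      ∀ c, 1 ≤ c → c ≤ X.dim → DetPeriod W X c,
      ∀ c, 1 ≤ c → c ≤ X.dim → DetAlgebraic W X c] := by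
  tfae_have 1 → 2 := by
    intro hB c _ hc
    obtain ⟨ν, hν, hinj⟩ := inj_of_lefschetzB hD hHL hB c hc
    exact detPeriod_of_inj hc hν hinj
  tfae_have 2 → 3 := by
    intro h
    have key : ∀ j c, X.dim - c ≤ j → 1 ≤ c → c ≤ X.dim → DetAlgebraic W X c := by
      intro j
      induction j with
      | zero =>
        intro c hj h1 h2
        exact detAlgebraic_of_period hD hHL h2 (fun c' hc1 hc2 => absurd hc2 (by omega)) (h c h1 h2)
      | succ j ih =>
        intro c hj h1 h2
        exact detAlgebraic_of_period hD hHL h2 (fun c' hc1 hc2 =>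
          spanInjective_of_det hD hHL hc2 (ih c' (by omega) (by omega) hc2)) (h c h1 h2)
    intro c h1 h2
    exact key (X.dim - c) c le_rfl h1 h2
  tfae_have 3 → 1 := by
    intro h
    apply ((lefschetzB_tfae hD hHL).out 0 2).2
    intro c hc
    rcases Nat.eq_zero_or_pos c with rfl | hpos
    · obtain ⟨γ, hγ, hγi⟩ := mem_KOp_iff.1 (KOp.id (W := W) X)
      refine ⟨γ, by simpa using hγ, fun x _ h0 => ?_⟩
      rw [hγi] at h0
      exact h0
    · exact spanInjective_of_det hD hHL hc (h c hpos hc)
  tfae_finish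

end Pool.Agent.Q67.Det
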