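import Pool.Agent.Q67.Det.ProjDet
import Pool.Agent.Q67.Det.Main
import Pool.Agent.H447R3.NumB
import Pool.Agent.TH132.A.HLf

/-!
# The Kunneth standard conjecture and determinant classes
-/

open CategoryTheory AlgebraicGeometry

universe u v

namespace Pool.Agent.Q67.Det

open Pool.Agent.H914 Pool.Agent.H914.VarClass Pool.Agent.H914.VarClass.Obj
  Pool.Agent.H914.WeilCohomology Pool.Agent.Y133.Half Pool.Agent.H447

variable {k : Type u} [Field k] {𝒱 : VarClass k} {ops : CycleOps 𝒱}

/-- The Kunneth component `π^i` of the diagonal is algebraic: the projector of `H(X)` onto `H^i(X)`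
is induced by a `K`-linear combination of classes of algebraic cycles of codimension `dim X` on
`X × X`. -/
def KunnethIn (W : WeilCohomology.{u, v} ops) (X : 𝒱.Obj) (i : ℕ) : Prop :=
  ∃ γ ∈ spanCycles W (X.prod X) (X.dim : ℤ),
    ∀ j, ∀ a ∈ W.gr X j, W.corr γ a = if j = i then a else 0

/-- Let `ω` and `ω'` be the determinant classes of (bases of) `H^(2n-i)(X)` and `H^i(X)`, `n = dim X`,
on `X^b`, where `b` is the Betti number. The class `ω × ω'` on `X^b × X^b` is a `K`-linear
combination of classes of algebraic cycles (of codimension `b n`). (The condition is empty if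
`b = 0`.) -/
def DetPair (W : WeilCohomology.{u, v} ops) (X : 𝒱.Obj) (i : ℕ) : Prop :=
  ∀ (m : ℕ) (f e : Fin (m + 1) → W.H X), IsBasisOf W X (2 * X.dim - i) f → IsBasisOf W X i e →
    cross W (detCl W X m f) (detCl W X m e) ∈
      spanCycles W ((pw X m).prod (pw X m)) (((m + 1) * X.dim : ℕ) : ℤ)

variable {W : WeilCohomology.{u, v} ops} {X : 𝒱.Obj}

lemma span_of_op {φ : Module.End W.K (W.H X)} (h : φ ∈ (algSys W).Op X X)
    (h0 : IsHom (W.gr X) 0 φ) : ∃ γ ∈ spanCycles W (X.prod X) (X.dim : ℤ), W.corr γ = φ := by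
  obtain ⟨c, hc, hcφ⟩ := Sys.mem_Op.1 h
  refine ⟨c, spanCycles_of_algSpan hc (mem_gr_of_isHom ?_), hcφ⟩
  rw [hcφ, sub_self, mul_zero]
  exact h0

lemma isHom_zero_of {φ : Module.End W.K (W.H X)} (h : ∀ j, ∀ a ∈ W.gr X j, φ a ∈ W.gr X j) :
    IsHom (W.gr X) 0 φ := by
  intro i a ha
  rw [add_zero]
  by_cases hi : 0 ≤ i
  · lift i to ℕ using hi
    rw [grZ_natCast] at ha ⊢
    exact h i a ha
  · rw [grZ_of_neg (by omega), Submodule.mem_bot] at ha
    rw [ha, map_zero]
    exact Submodule.zero_mem _

lemma proj_homog (i : ℕ) : ∀ j, ∀ a ∈ W.gr X j, proj (W.isInternal X) i a ∈ W.gr X j := by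
  intro j a ha
  by_cases h : j = i
  · subst h; rw [proj_same _ ha]; exact ha
  · rw [proj_ne _ ha h]; exact Submodule.zero_mem _

/-- The Kunneth component in terms of the system of algebraic classes. -/
lemma kunnethIn_iff (i : ℕ) :
    KunnethIn W X i ↔ proj (W.isInternal X) i ∈ (algSys W).Op X X := by
  constructor
  · rintro ⟨γ, hγ, h⟩
    have : proj (W.isInternal X) i = W.corr γ := by
      apply gr_ext (W.isInternal X)
      intro j a ha
      rw [h j a ha]
      by_cases hj : j = i
      · subst hj; rw [proj_same _ ha, if_pos rfl]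
      · rw [proj_ne _ ha hj, if_neg hj]
    rw [this]
    exact Sys.Op.corr (span_le_alg hγ)
  · intro h
    obtain ⟨γ, hγ, hγ'⟩ := span_of_op h (isHom_zero_of (proj_homog i))
    refine ⟨γ, hγ, fun j a ha => ?_⟩
    rw [hγ']
    by_cases hj : j = i
    · subst hj; rw [proj_same _ ha, if_pos rfl]
    · rw [proj_ne _ ha hj, if_neg hj]

/-- The dual family. -/
lemma exists_dual {i j : ℕ} (hij : i + j = 2 * X.dim) {m : ℕ} {g v : Fin (m + 1) → W.H X}
    (hg : IsBasisOf W X j g) (hv : IsBasisOf W X i v) :
    ∃ f : Fin (m + 1) → W.H X, (∀ a, f a ∈ W.gr X j) ∧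
      ∀ a b, W.tr X (f a * v b) = if a = b then 1 else 0 := by
  classical
  have hG : (pairM W g v).det ≠ 0 := pairM_det_ne (by omega) hg.mem hg.1 hv
  have hGu : IsUnit (pairM W g v).det := isUnit_iff_ne_zero.2 hG
  refine ⟨fun a => ∑ l, (pairM W g v)⁻¹ l a • g l, fun a => Submodule.sum_mem _ fun l _ =>
    Submodule.smul_mem _ _ (hg.mem l), fun a b => ?_⟩
  have h1 : W.tr X ((∑ l, (pairM W g v)⁻¹ l a • g l) * v b) =
      ((pairM W g v) * (pairM W g v)⁻¹) b a := by
    rw [Matrix.mul_apply, Finset.sum_mul, map_sum]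
    refine Finset.sum_congr rfl fun l _ => ?_
    rw [smul_mul_assoc, map_smul, smul_eq_mul, mul_comm]
    rfl
  rw [h1, Matrix.mul_nonsing_inv _ hGu, Matrix.one_apply]
  by_cases hab : a = b
  · subst hab; simp
  · rw [if_neg hab, if_neg (Ne.symm hab)]

lemma dualOp_eq_proj {i j : ℕ} (hij : i + j = 2 * X.dim) {m : ℕ} {f v : Fin (m + 1) → W.H X}
    (hf : ∀ a, f a ∈ W.gr X j) (hv : IsBasisOf W X i v)
    (hdual : ∀ a b, W.tr X (f a * v b) = if a = b then 1 else 0) :
    dualOp W f v = proj (W.isInternal X) i := by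
  apply gr_ext (W.isInternal X)
  intro l x hx
  rw [dualOp_apply]
  by_cases hl : l = i
  · subst hl
    rw [proj_same _ hx]
    rw [← hv.2] at hx
    induction hx using Submodule.span_induction with
    | mem x hx =>
      obtain ⟨b, rfl⟩ := hx
      rw [Finset.sum_eq_single b]
      · rw [hdual, if_pos rfl, one_smul]
      · intro a _ hab
        rw [hdual, if_neg hab, zero_smul]
      · intro h; exact absurd (Finset.mem_univ _) h
    | zero => simp
    | add x y _ _ hx hy =>
      simp only [mul_add, map_add, add_smul, Finset.sum_add_distrib, hx, hy]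
    | smul r x _ hx =>
      simp only [mul_smul_comm, map_smul, smul_assoc, ← Finset.smul_sum, hx]
  · rw [proj_ne _ hx hl]
    refine Finset.sum_eq_zero fun a _ => ?_
    rw [W.tr_eq_zero (W.mul_mem (hf a) hx) (by omega), zero_smul]

/-- **The criterion for one Kunneth component.** -/
theorem kunneth_iff_det {i : ℕ} (hi : i ≤ 2 * X.dim) : KunnethIn W X i ↔ DetPair W X i := by
  classical
  rw [kunnethIn_iff]
  have hij : i + (2 * X.dim - i) = 2 * X.dim := by omega
  have hpar : ∀ {x : W.H X}, x ∈ W.gr X (2 * X.dim - i) → x ∈ PH W X i := fun hx =>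
    PH.of' (by omega) hx
  constructor
  · intro h m g e hg he
    obtain ⟨f, hf, hdual⟩ := exists_dual hij hg he
    have h1 := (dualOp_mem_iff (fun a => hpar (hf a)) (fun a => PH.of (he.mem a)) hdual
      (algSys W)).1 (by rw [dualOp_eq_proj hij hf he hdual]; exact h)
    have hfb : LinearIndependent W.K f := by
      rw [Fintype.linearIndependent_iff]
      intro c hc a
      have h2 := congrArg (fun w => W.tr X (w * e a)) hc
      simp only [Finset.sum_mul, smul_mul_assoc, map_sum, map_smul, hdual, smul_eq_mul, mul_ite,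
        mul_one, mul_zero, zero_mul, map_zero] at h2
      rw [Finset.sum_ite_eq'] at h2
      simpa using h2
    have hfB : IsBasisOf W X (2 * X.dim - i) f := by
      refine ⟨hfb, ?_⟩
      have hr : Module.finrank W.K (W.gr X (2 * X.dim - i)) = m + 1 := by
        rw [← hg.2, finrank_span_eq_card hg.1, Fintype.card_fin]
      apply Submodule.eq_of_le_of_finrank_le
      · rw [Submodule.span_le]
        rintro _ ⟨a, rfl⟩
        exact hf a
      · rw [hr, finrank_span_eq_card hfb, Fintype.card_fin]
    obtain ⟨r, hr⟩ := hfB.detCl hg.mem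
    refine spanCycles_of_algSpan ?_ ?_
    · change xp W (detCl W X m g) (detCl W X m e) ∈ (algSys W).C _
      rw [hr, xp_smul_left]
      exact Submodule.smul_mem _ _ h1
    · have h2 : cross W (detCl W X m g) (detCl W X m e) ∈ W.gr ((pw X m).prod (pw X m))
          ((m + 1) * (2 * X.dim - i) + (m + 1) * i) :=
        W.mul_mem (W.map_mem _ (detCl_gr hg.mem)) (W.map_mem _ (detCl_gr he.mem))
      rwa [← mul_add, show 2 * X.dim - i + i = 2 * X.dim by omega,
        show (m + 1) * (2 * X.dim) = 2 * ((m + 1) * X.dim) by ring] at h2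
  · intro h
    rcases Nat.eq_zero_or_pos (Module.finrank W.K (W.gr X i)) with h0 | hpos
    · have h1 : W.gr X i = ⊥ := Submodule.finrank_eq_zero.1 h0
      have h2 : proj (W.isInternal X) i = 0 := by
        apply gr_ext (W.isInternal X)
        intro j a ha
        rw [LinearMap.zero_apply]
        by_cases hj : j = i
        · subst hj
          rw [h1, Submodule.mem_bot] at ha
          rw [ha, map_zero]
        · rw [proj_ne _ ha hj]
      rw [h2]
      exact Submodule.zero_mem _
    · obtain ⟨m, hm⟩ : ∃ m, Module.finrank W.K (W.gr X i) = m + 1 :=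
        ⟨_, (Nat.succ_pred_eq_of_pos hpos).symm⟩
      have hbas : ∀ l, Module.finrank W.K (W.gr X l) = m + 1 → ∃ v : Fin (m + 1) → W.H X,
          IsBasisOf W X l v := by
        intro l hl
        let b : Module.Basis (Fin (m + 1)) W.K (W.gr X l) := Module.finBasisOfFinrankEq _ _ hl
        refine ⟨fun a => (b a : W.H X), b.linearIndependent.map' (W.gr X l).subtype
          (W.gr X l).ker_subtype, ?_⟩
        have h1 : (Set.range fun a => (b a : W.H X)) = (W.gr X l).subtype '' Set.range b := by
          rw [← Set.range_comp]; rfl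
        rw [h1, Submodule.span_image, b.span_eq, Submodule.map_top, Submodule.range_subtype]
      obtain ⟨e, he⟩ := hbas i hm
      obtain ⟨g, hg⟩ := hbas (2 * X.dim - i) (by rw [← TH132.A.finrank_gr_eq hi, hm])
      obtain ⟨f, hf, hdual⟩ := exists_dual hij hg he
      obtain ⟨r, hr⟩ := hg.detCl hf
      rw [← dualOp_eq_proj hij hf he hdual,
        dualOp_mem_iff (fun a => hpar (hf a)) (fun a => PH.of (he.mem a)) hdual]
      rw [hr, xp_smul_left]
      exact Submodule.smul_mem _ _ (span_le_alg (h m g e hg he))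

/-- The transpose of a Kunneth component. -/
lemma proj_adj {i : ℕ} (hi : i ≤ 2 * X.dim) :
    Adj W (proj (W.isInternal X) i) (proj (W.isInternal X) (2 * X.dim - i)) := by
  intro a b
  refine gr_induction (W.isInternal X) (p := fun a =>
    W.tr X (proj (W.isInternal X) i a * b) =
      W.tr X (a * proj (W.isInternal X) (2 * X.dim - i) b)) ?_ ?_ a
  swap
  · intro a a' ha ha'
    rw [map_add, add_mul, add_mul, map_add, map_add, ha, ha']
  intro j a ha
  refine gr_induction (W.isInternal X) (p := fun b =>
    W.tr X (proj (W.isInternal X) i a * b) =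
      W.tr X (a * proj (W.isInternal X) (2 * X.dim - i) b)) ?_ ?_ b
  swap
  · intro b b' hb hb'
    rw [map_add, mul_add, mul_add, map_add, map_add, hb, hb']
  intro l b hb
  by_cases hj : j = i
  · subst hj
    rw [proj_same _ ha]
    by_cases hl : l = 2 * X.dim - j
    · subst hl; rw [proj_same _ hb]
    · rw [proj_ne _ hb hl, mul_zero, map_zero, W.tr_eq_zero (W.mul_mem ha hb) (by omega)]
  · rw [proj_ne _ ha hj, zero_mul, map_zero]
    by_cases hl : l = 2 * X.dim - i
    · subst hl
      rw [proj_same _ hb, W.tr_eq_zero (W.mul_mem ha hb) (by omega)]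
    · rw [proj_ne _ hb hl, mul_zero, map_zero]

lemma adj_unique {u u' u'' : Module.End W.K (W.H X)} (h : Adj W u u') (h' : Adj W u u'') :
    u' = u'' := by
  apply LinearMap.ext
  intro b
  apply sub_eq_zero.1
  apply nondeg_right
  intro a
  rw [mul_sub, map_sub, ← h a b, ← h' a b, sub_self]

lemma kunneth_dual {i : ℕ} (hi : i ≤ 2 * X.dim) (h : KunnethIn W X i) :
    KunnethIn W X (2 * X.dim - i) := by
  rw [kunnethIn_iff] at h ⊢
  obtain ⟨u, hu, hadj⟩ := Sys.Op.exists_adj h
  rwa [adj_unique (proj_adj hi) hadj]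

/-- **The Kunneth standard conjecture and determinant classes.** -/
theorem kunneth_tfae (W : WeilCohomology.{u, v} ops) (X : 𝒱.Obj) :
    List.TFAE [∀ i ≤ 2 * X.dim, KunnethIn W X i,
      ∀ i ≤ 2 * X.dim, DetPair W X i,
      ∀ i < X.dim, DetPair W X i] := by
  classical
  tfae_have 1 ↔ 2 := forall₂_congr fun i hi => kunneth_iff_det hi
  tfae_have 2 → 3 := fun h i hi => h i (by omega)
  tfae_have 3 → 1 := by
    intro h
    have hlow : ∀ i < X.dim, KunnethIn W X i := fun i hi =>
      (kunneth_iff_det (by omega)).2 (h i hi)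
    have hne : ∀ i ≤ 2 * X.dim, i ≠ X.dim → KunnethIn W X i := by
      intro i hi hin
      rcases Nat.lt_or_ge i X.dim with h1 | h1
      · exact hlow i h1
      · have := kunneth_dual (i := 2 * X.dim - i) (by omega) (hlow _ (by omega))
        rwa [show 2 * X.dim - (2 * X.dim - i) = i by omega] at this
    intro i hi
    by_cases hin : i = X.dim
    · subst hin
      rw [kunnethIn_iff]
      have h1 : proj (W.isInternal X) X.dim = LinearMap.id -
          ∑ l ∈ (Finset.range (2 * X.dim + 1)).erase X.dim, proj (W.isInternal X) l := by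
        apply gr_ext (W.isInternal X)
        intro j a ha
        rw [LinearMap.sub_apply, LinearMap.id_apply, LinearMap.sum_apply]
        by_cases hj : j = X.dim
        · subst hj
          rw [proj_same _ ha, Finset.sum_eq_zero, sub_zero]
          intro l hl
          exact proj_ne _ ha (Ne.symm (Finset.ne_of_mem_erase hl))
        · rw [proj_ne _ ha hj]
          by_cases hj2 : j ≤ 2 * X.dim
          · rw [Finset.sum_eq_single_of_mem j (Finset.mem_erase.2 ⟨hj, by simp; omega⟩),
              proj_same _ ha, sub_self]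
            intro l _ hl
            exact proj_ne _ ha (Ne.symm hl)
          · rw [W.gr_eq_bot X j (by omega), Submodule.mem_bot] at ha
            rw [ha]
            simp
      rw [h1]
      refine Submodule.sub_mem _ Sys.Op.id (Submodule.sum_mem _ fun l hl => ?_)
      rw [Finset.mem_erase, Finset.mem_range] at hl
      exact (kunnethIn_iff l).1 (hne l (by omega) hl.1)
    · exact hne i hi hin
  tfae_finish

end Pool.Agent.Q67.Det
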