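import Pool.Agent.Q67.Det.Contr

/-!
# Alternation
-/

open CategoryTheory AlgebraicGeometry

universe u v

namespace Pool.Agent.Q67.Det

open Pool.Agent.H914 Pool.Agent.H914.VarClass Pool.Agent.H914.VarClass.Obj
  Pool.Agent.H914.WeilCohomology Pool.Agent.Y133.Half

variable {k : Type u} [Field k] {𝒱 : VarClass k} {ops : CycleOps 𝒱}
  {W : WeilCohomology.{u, v} ops} {X Y Z P Q : 𝒱.Obj}

/-- The sign of a permutation in the coefficient field. -/
def sg (K : Type*) [Field K] {m : ℕ} (σ : Equiv.Perm (Fin m)) : K :=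
  ((Equiv.Perm.sign σ : ℤ) : K)

lemma sg_mul_self (K : Type*) [Field K] {m : ℕ} (σ : Equiv.Perm (Fin m)) :
    sg K σ * sg K σ = 1 := by
  unfold sg
  rcases Int.units_eq_one_or (Equiv.Perm.sign σ) with h | h <;> simp [h]

lemma sg_inv (K : Type*) [Field K] {m : ℕ} (σ : Equiv.Perm (Fin m)) :
    sg K σ⁻¹ = sg K σ := by
  unfold sg
  rw [Equiv.Perm.sign_inv]

lemma sign_smul {K M : Type*} [Field K] [AddCommGroup M] [Module K M] {m : ℕ}
    (σ : Equiv.Perm (Fin m)) (a : M) : (Equiv.Perm.sign σ) • a = sg K σ • a := by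
  rw [Units.smul_def, sg, Int.cast_smul_eq_zsmul]

lemma eps_mul_self {K : Type*} [Field K] {ε : K} (hε : ε * ε = 1) {m : ℕ}
    (σ : Equiv.Perm (Fin m)) : eps K ε σ * eps K ε σ = 1 := by
  unfold eps
  split_ifs
  · rw [mul_one]
  · exact hε

lemma detCl_eq {m : ℕ} (x : Fin (m + 1) → W.H X) :
    detCl W X m x = ∑ σ : Equiv.Perm (Fin (m + 1)), sg W.K σ • ten W X m (x ∘ σ) := by
  rw [detCl]
  exact Finset.sum_congr rfl fun σ _ => sign_smul σ _

/-- The alternation operator on classes of degree `d` in each factor. -/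
noncomputable def altOp (W : WeilCohomology.{u, v} ops) (X : 𝒱.Obj) (m d : ℕ) :
    Module.End W.K (W.H (pw X m)) :=
  ∑ σ : Equiv.Perm (Fin (m + 1)), (sg W.K σ * eps W.K (sd W.K d) σ) • pm W X m σ

lemma altOp_ten {m d : ℕ} {x : Fin (m + 1) → W.H X} (hx : ∀ i, x i ∈ PH W X d) :
    altOp W X m d (ten W X m x) = detCl W X m x := by
  rw [altOp, LinearMap.sum_apply, detCl_eq, ← Equiv.sum_comp (Equiv.inv _)]
  refine Finset.sum_congr rfl fun σ _ => ?_
  rw [LinearMap.smul_apply, Equiv.inv_apply, pm_ten _ hx, smul_smul, mul_assoc,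
    eps_mul_self (sd_sq _ _), mul_one, sg_inv]
  rfl

lemma altOp_mem (T : Sys W) (m d : ℕ) : altOp W X m d ∈ T.Op (pw X m) (pw X m) :=
  Submodule.sum_mem _ fun _ _ => Submodule.smul_mem _ _ (Sys.Op.map _)

/-- The matrix of the pairing of two families. -/
noncomputable def pairM (W : WeilCohomology.{u, v} ops) {X : 𝒱.Obj} {m : ℕ}
    (x f : Fin (m + 1) → W.H X) : Matrix (Fin (m + 1)) (Fin (m + 1)) W.K :=
  Matrix.of fun j i => W.tr X (x i * f j)

lemma tr_ten_det {m d d' : ℕ} {x f : Fin (m + 1) → W.H X} (hx : ∀ i, x i ∈ W.gr X d)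
    (hf : ∀ i, f i ∈ W.gr X d') :
    W.tr (pw X m) (ten W X m x * detCl W X m f) =
      (-1 : W.K) ^ (sgT m (fun _ => d) (fun _ => d')) * (pairM W x f).det := by
  rw [detCl_eq, Finset.mul_sum, map_sum, Matrix.det_apply', Finset.mul_sum]
  refine Finset.sum_congr rfl fun σ _ => ?_
  rw [mul_smul_comm, map_smul, tr_ten (d := fun _ => d) (d' := fun _ => d') (y := f ∘ σ) hx
    (fun i => hf (σ i)), smul_eq_mul]
  simp only [pairM, Matrix.of_apply, Function.comp, sg]
  ring

lemma tr_ten_perm_det {m d d' : ℕ} {x f : Fin (m + 1) → W.H X} (hx : ∀ i, x i ∈ W.gr X d)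
    (hf : ∀ i, f i ∈ W.gr X d') (σ : Equiv.Perm (Fin (m + 1))) :
    W.tr (pw X m) (ten W X m (x ∘ σ) * detCl W X m f) =
      sg W.K σ * W.tr (pw X m) (ten W X m x * detCl W X m f) := by
  rw [tr_ten_det (x := x ∘ σ) (fun i => hx _) hf, tr_ten_det hx hf]
  have h : pairM W (x ∘ σ) f = (pairM W x f).submatrix id σ := rfl
  rw [h, Matrix.det_permute', sg]
  ring

lemma tr_det_det {m d d' : ℕ} {x f : Fin (m + 1) → W.H X} (hx : ∀ i, x i ∈ W.gr X d)
    (hf : ∀ i, f i ∈ W.gr X d') :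
    W.tr (pw X m) (detCl W X m x * detCl W X m f) =
      ((m + 1).factorial : W.K) * W.tr (pw X m) (ten W X m x * detCl W X m f) := by
  conv_lhs => rw [detCl_eq x, Finset.sum_mul, map_sum]
  have h : ∀ σ ∈ (Finset.univ : Finset (Equiv.Perm (Fin (m + 1)))),
      W.tr (pw X m) (sg W.K σ • ten W X m (x ∘ σ) * detCl W X m f) =
        W.tr (pw X m) (ten W X m x * detCl W X m f) := by
    intro σ _
    rw [smul_mul_assoc, map_smul, tr_ten_perm_det hx hf, smul_eq_mul, ← mul_assoc, sg_mul_self,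
      one_mul]
  rw [Finset.sum_congr rfl h, Finset.sum_const, Finset.card_univ, Fintype.card_perm,
    Fintype.card_fin, nsmul_eq_mul]

/-- Poincare duality in terms of a basis. -/
lemma nondeg_of_basis {i j : ℕ} (hij : i + j = 2 * X.dim) {m : ℕ} {f : Fin (m + 1) → W.H X}
    (hf : IsBasisOf W X j f) {a : W.H X} (ha : a ∈ W.gr X i)
    (h : ∀ l, W.tr X (a * f l) = 0) : a = 0 := by
  apply W.nondeg
  intro b
  refine gr_induction (W.isInternal X) (p := fun b => W.tr X (a * b) = 0) ?_ ?_ b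
  · intro l b hb
    by_cases hl : l = j
    · subst hl
      rw [← hf.2] at hb
      induction hb using Submodule.span_induction with
      | mem x hx => obtain ⟨r, rfl⟩ := hx; exact h r
      | zero => rw [mul_zero, map_zero]
      | add x y _ _ hx hy => rw [mul_add, map_add, hx, hy, add_zero]
      | smul c x _ hx => rw [mul_smul_comm, map_smul, hx, smul_zero]
    · exact W.tr_eq_zero (W.mul_mem ha hb) (by omega)
  · intro x y hx hy
    rw [mul_add, map_add, hx, hy, add_zero]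

lemma pairM_det_ne {i j : ℕ} (hij : i + j = 2 * X.dim) {m : ℕ} {x f : Fin (m + 1) → W.H X}
    (hx : ∀ l, x l ∈ W.gr X i) (hx' : LinearIndependent W.K x) (hf : IsBasisOf W X j f) :
    (pairM W x f).det ≠ 0 := by
  intro h
  obtain ⟨v, hv, hv'⟩ := Matrix.exists_mulVec_eq_zero_iff.2 h
  apply hv
  have h1 : ∑ l, v l • x l = 0 := by
    apply nondeg_of_basis hij hf (Submodule.sum_mem _ fun l _ => Submodule.smul_mem _ _ (hx l))
    intro r
    have h2 := congrFun hv' r
    rw [Pi.zero_apply, Matrix.mulVec, dotProduct] at h2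
    rw [Finset.sum_mul, map_sum, ← h2]
    refine Finset.sum_congr rfl fun l _ => ?_
    rw [smul_mul_assoc, map_smul, smul_eq_mul, mul_comm]
    rfl
  funext l
  exact Fintype.linearIndependent_iff.1 hx' v h1 l

lemma IsBasisOf.mem {i m : ℕ} {f : Fin (m + 1) → W.H X} (hf : IsBasisOf W X i f) (l) :
    f l ∈ W.gr X i := by
  rw [← hf.2]; exact Submodule.subset_span ⟨l, rfl⟩

/-- The basis of the graded piece. -/
noncomputable def IsBasisOf.basis {i m : ℕ} {f : Fin (m + 1) → W.H X} (hf : IsBasisOf W X i f) :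
    Module.Basis (Fin (m + 1)) W.K (W.gr X i) :=
  (Module.Basis.span hf.1).map (LinearEquiv.ofEq _ _ hf.2)

lemma IsBasisOf.basis_apply {i m : ℕ} {f : Fin (m + 1) → W.H X} (hf : IsBasisOf W X i f) (l) :
    (hf.basis l : W.H X) = f l := by
  rw [IsBasisOf.basis, Module.Basis.map_apply, LinearEquiv.coe_ofEq_apply,
    Module.Basis.span_apply]

/-- Determinant classes of families in `H^i(X)` are proportional. -/
lemma IsBasisOf.detCl {i m : ℕ} {e : Fin (m + 1) → W.H X} (he : IsBasisOf W X i e)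
    {x : Fin (m + 1) → W.H X} (hx : ∀ l, x l ∈ W.gr X i) :
    ∃ r : W.K, detCl W X m x = r • Det.detCl W X m e := by
  refine ⟨he.basis.det (fun l => (⟨x l, hx l⟩ : W.gr X i)), ?_⟩
  have h := detCl_smul (W := W) he.basis (fun l => (⟨x l, hx l⟩ : W.gr X i))
  simp only [he.basis_apply] at h
  exact h

end Pool.Agent.Q67.Det
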