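import Pool.Agent.Q67.Det.Multi
import Pool.Agent.Y133.Half.Num

/-!
# Traces of external products, and contractions
-/

open CategoryTheory AlgebraicGeometry

universe u v

namespace Pool.Agent.Q67.Det

open Pool.Agent.H914 Pool.Agent.H914.VarClass Pool.Agent.H914.VarClass.Obj
  Pool.Agent.H914.WeilCohomology Pool.Agent.Y133.Half

variable {k : Type u} [Field k] {𝒱 : VarClass k} {ops : CycleOps 𝒱}
  {W : WeilCohomology.{u, v} ops} {X Y Z P Q : 𝒱.Obj}

lemma ten_gr : ∀ {m : ℕ} {d : Fin (m + 1) → ℕ} {x : Fin (m + 1) → W.H X},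
    (∀ i, x i ∈ W.gr X (d i)) → ten W X m x ∈ W.gr (pw X m) (∑ i, d i) := by
  intro m
  induction m with
  | zero =>
    intro d x hx
    rw [Fin.sum_univ_one]
    exact hx 0
  | succ m ih =>
    intro d x hx
    rw [Fin.sum_univ_castSucc]
    exact W.mul_mem (W.map_mem _ (ih (d := Fin.init d) (x := Fin.init x) fun i => hx _))
      (W.map_mem _ (hx (Fin.last (m + 1))))

/-- The exponent of the sign in the trace formula. -/
def sgT : ∀ m : ℕ, (Fin (m + 1) → ℕ) → (Fin (m + 1) → ℕ) → ℕ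
  | 0, _, _ => 0
  | m + 1, d, d' => d (Fin.last (m + 1)) * (∑ i : Fin (m + 1), d' i.castSucc) +
      sgT m (Fin.init d) (Fin.init d')

lemma tr_xp_mul {b c : ℕ} (x x' : W.H P) (y y' : W.H Q) (hy : y ∈ PH W Q b)
    (hx' : x' ∈ PH W P c) :
    W.tr (P.prod Q) (xp W x y * xp W x' y') =
      (-1 : W.K) ^ (b * c) * (W.tr P (x * x') * W.tr Q (y * y')) := by
  rw [xp_mul x x' y y' hy hx', map_smul, tr_xp, smul_eq_mul]

lemma tr_ten : ∀ {m : ℕ} {d d' : Fin (m + 1) → ℕ} {x y : Fin (m + 1) → W.H X},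
    (∀ i, x i ∈ W.gr X (d i)) → (∀ i, y i ∈ W.gr X (d' i)) →
    W.tr (pw X m) (ten W X m x * ten W X m y) =
      (-1 : W.K) ^ (sgT m d d') * ∏ i, W.tr X (x i * y i) := by
  intro m
  induction m with
  | zero =>
    intro d d' x y _ _
    rw [sgT, pow_zero, one_mul, Fin.prod_univ_one]
    rfl
  | succ m ih =>
    intro d d' x y hx hy
    have h1 := tr_xp_mul (W := W) (ten W X m (Fin.init x)) (ten W X m (Fin.init y))
      (x (Fin.last (m + 1))) (y (Fin.last (m + 1))) (PH.of (hx _))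
      (PH.of (ten_gr (W := W) (d := Fin.init d') (x := Fin.init y) fun i => hy _))
    have h2 := ih (d := Fin.init d) (d' := Fin.init d') (x := Fin.init x) (y := Fin.init y)
      (fun i => hx _) (fun i => hy _)
    rw [ten_succ, ten_succ]
    refine h1.trans ?_
    rw [h2, Fin.prod_univ_castSucc (fun i => W.tr X (x i * y i)), sgT, pow_add]
    simp only [Fin.init]
    ring

/-- The morphism `((p, q), x) ↦ ((p, x), (q, x))`. -/
noncomputable def dg (P Q X : 𝒱.Obj) : (P.prod Q).prod X ⟶ (P.prod X).prod (Q.prod X) :=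
  Obj.lift (Obj.lift (fst (P.prod Q) X ≫ fst P Q) (snd (P.prod Q) X))
    (Obj.lift (fst (P.prod Q) X ≫ snd P Q) (snd (P.prod Q) X))

/-- Contraction of the last factors with the class `δ`. -/
noncomputable def con (W : WeilCohomology.{u, v} ops) (P Q : 𝒱.Obj) {X : 𝒱.Obj} (δ : W.H X) :
    W.H ((P.prod X).prod (Q.prod X)) →ₗ[W.K] W.H (P.prod Q) :=
  W.push (fst (P.prod Q) X) ∘ₗ LinearMap.mulRight W.K (W.map (snd (P.prod Q) X) δ) ∘ₗ
    (W.map (dg P Q X)).toLinearMap

lemma con_apply (δ : W.H X) (c : W.H ((P.prod X).prod (Q.prod X))) :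
    con W P Q δ c = W.push (fst (P.prod Q) X) (W.map (dg P Q X) c *
      W.map (snd (P.prod Q) X) δ) := rfl

lemma con_mem (T : Sys W) {δ : W.H X} (hδ : δ ∈ T.C X) {c : W.H ((P.prod X).prod (Q.prod X))}
    (hc : c ∈ T.C _) : con W P Q δ c ∈ T.C (P.prod Q) := by
  rw [con_apply]
  exact T.push _ (T.mul (T.map _ hc) (T.map _ hδ))

lemma con_xp {δ : W.H X} (hδ : δ ∈ PH W X 0) {d j : ℕ} {a : W.H P} {b : W.H Q} {x y : W.H X}
    (hb : b ∈ PH W Q j) (hx : x ∈ PH W X d) (hy : y ∈ PH W X d) :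
    con W P Q δ (xp W (xp W a x) (xp W b y)) =
      ((-1 : W.K) ^ (d * j) * W.tr X (x * y * δ)) • xp W a b := by
  have h1 : W.map (dg P Q X) (xp W (xp W a x) (xp W b y)) =
      (-1 : W.K) ^ (d * j) • xp W (xp W a b) (x * y) := by
    rw [xp, xp, xp, map_mul, map_mul, map_mul, map_mul, map_mul]
    simp only [← W.map_comp, dg, Obj.lift_fst_assoc, Obj.lift_snd_assoc, Obj.lift_fst,
      Obj.lift_snd]
    have h2 := PH.comm (W := W) (PH.map (snd (P.prod Q) X) hx)
      (PH.map (fst (P.prod Q) X ≫ snd P Q) hb)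
    rw [mul_assoc, ← mul_assoc (W.map (snd (P.prod Q) X) x), h2, xp, xp, map_mul, map_mul,
      W.map_comp, W.map_comp]
    simp only [mul_assoc, smul_mul_assoc, mul_smul_comm]
  have h3 : x * y * δ ∈ PH W X 0 := PH.congr (b := d + d + 0) (by omega) (PH.mul (PH.mul hx hy) hδ)
  rw [con_apply, h1, smul_mul_assoc, xp, mul_assoc, ← map_mul, map_smul]
  change _ • W.push (fst (P.prod Q) X) (xp W (xp W a b) (x * y * δ)) = _
  rw [push_fst _ _ h3, smul_smul]

/-- Contraction of all factors but the first ones. -/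
noncomputable def conAll (W : WeilCohomology.{u, v} ops) {X : 𝒱.Obj} (δ : W.H X) :
    ∀ m : ℕ, W.H ((pw X m).prod (pw X m)) →ₗ[W.K] W.H (X.prod X)
  | 0 => LinearMap.id
  | m + 1 => conAll W δ m ∘ₗ con W (pw X m) (pw X m) δ

lemma conAll_mem (T : Sys W) {δ : W.H X} (hδ : δ ∈ T.C X) : ∀ (m : ℕ)
    {c : W.H ((pw X m).prod (pw X m))}, c ∈ T.C _ → conAll W δ m c ∈ T.C (X.prod X) := by
  intro m
  induction m with
  | zero => intro c hc; exact hc
  | succ m ih => intro c hc; exact ih (con_mem T hδ hc)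

/-- The exponent of the sign of a complete contraction. -/
def sgC (d : ℕ) : ℕ → ℕ
  | 0 => 0
  | m + 1 => d * ((m + 1) * d) + sgC d m

lemma conAll_ten {δ : W.H X} (hδ : δ ∈ PH W X 0) {d : ℕ} : ∀ {m : ℕ}
    {x y : Fin (m + 1) → W.H X}, (∀ i, x i ∈ PH W X d) → (∀ i, y i ∈ PH W X d) →
    conAll W δ m (xp W (ten W X m x) (ten W X m y)) =
      ((-1 : W.K) ^ (sgC d m) * ∏ i : Fin m, W.tr X (x i.succ * y i.succ * δ)) •
        xp W (x 0) (y 0) := by
  intro m
  induction m with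
  | zero =>
    intro x y _ _
    rw [sgC, pow_zero, one_mul, Finset.prod_of_isEmpty, one_smul]
    rfl
  | succ m ih =>
    intro x y hx hy
    have h1 := con_xp (W := W) hδ (a := ten W X m (Fin.init x)) (b := ten W X m (Fin.init y))
      (ten_mem (W := W) (d := d) fun i => hy _) (hx (Fin.last (m + 1))) (hy (Fin.last (m + 1)))
    have h2 := ih (x := Fin.init x) (y := Fin.init y) (fun i => hx _) (fun i => hy _)
    change conAll W δ m (con W (pw X m) (pw X m) δ (xp W (xp W (ten W X m (Fin.init x))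
      (x (Fin.last (m + 1)))) (xp W (ten W X m (Fin.init y)) (y (Fin.last (m + 1)))))) = _
    rw [h1, map_smul, h2, smul_smul, Fin.prod_univ_castSucc, sgC, pow_add]
    congr 1
    simp only [Fin.init, Fin.succ_last, Fin.succ_castSucc]
    ring

end Pool.Agent.Q67.Det
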