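import Pool.Agent.Q67.Det.Alt

/-!
# Projection to the extreme Kunneth component, and the determinant class
-/

open CategoryTheory AlgebraicGeometry

universe u v

namespace Pool.Agent.Q67.Det

open Pool.Agent.H914 Pool.Agent.H914.VarClass Pool.Agent.H914.VarClass.Obj
  Pool.Agent.H914.WeilCohomology Pool.Agent.Y133.Half

variable {k : Type u} [Field k] {𝒱 : VarClass k} {ops : CycleOps 𝒱}
  {W : WeilCohomology.{u, v} ops} {X Y Z P Q : 𝒱.Obj}

/-- The homogeneous classes on a product are sums of external products. -/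
lemma gr_prod {N : ℕ} {c : W.H (P.prod Q)} (hc : c ∈ W.gr (P.prod Q) N) :
    c ∈ Submodule.span W.K {z | ∃ i j, i + j = N ∧ ∃ a ∈ W.gr P i, ∃ b ∈ W.gr Q j,
      z = xp W a b} := by
  have key : ∀ c : W.H (P.prod Q), proj (W.isInternal (P.prod Q)) N c ∈
      Submodule.span W.K {z | ∃ i j, i + j = N ∧ ∃ a ∈ W.gr P i, ∃ b ∈ W.gr Q j,
        z = xp W a b} := by
    intro c
    refine W.kunneth_induction (p := fun c => proj (W.isInternal (P.prod Q)) N c ∈ _) ?_ ?_ c
    · intro a b ha hb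
      rw [map_add]
      exact Submodule.add_mem _ ha hb
    · intro i j a ha b hb
      have h1 : W.map (fst P Q) a * W.map (snd P Q) b ∈ W.gr (P.prod Q) (i + j) :=
        W.mul_mem (W.map_mem _ ha) (W.map_mem _ hb)
      by_cases hN : i + j = N
      · subst hN
        rw [proj_same _ h1]
        exact Submodule.subset_span ⟨i, j, rfl, a, ha, b, hb, rfl⟩
      · rw [proj_ne _ h1 hN]
        exact Submodule.zero_mem _
  have := key c
  rwa [proj_same _ hc] at this

lemma span_xp {S : Set (W.H P)} {T : Set (W.H Q)} {U : Submodule W.K (W.H (P.prod Q))}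
    (h : ∀ a ∈ S, ∀ b ∈ T, xp W a b ∈ U) {a : W.H P} (ha : a ∈ Submodule.span W.K S) {b : W.H Q}
    (hb : b ∈ Submodule.span W.K T) : xp W a b ∈ U := by
  induction ha using Submodule.span_induction with
  | mem a ha =>
    induction hb using Submodule.span_induction with
    | mem b hb => exact h a ha b hb
    | zero =>
      have : xp W a (0 : W.H Q) = 0 := by rw [xp, map_zero, mul_zero]
      rw [this]; exact Submodule.zero_mem _
    | add x y _ _ hx hy => rw [xp_add_right]; exact Submodule.add_mem _ hx hy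
    | smul c x _ hx => rw [xp_smul_right]; exact Submodule.smul_mem _ _ hx
  | zero =>
    have : xp W (0 : W.H P) b = 0 := by rw [xp, map_zero, zero_mul]
    rw [this]; exact Submodule.zero_mem _
  | add x y _ _ hx hy => rw [xp_add_left]; exact Submodule.add_mem _ hx hy
  | smul c x _ hx => rw [xp_smul_left]; exact Submodule.smul_mem _ _ hx

/-- External products of homogeneous classes of given total degree. -/
def tenSet (W : WeilCohomology.{u, v} ops) (X : 𝒱.Obj) (m N : ℕ) : Set (W.H (pw X m)) :=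
  {z | ∃ (d : Fin (m + 1) → ℕ) (x : Fin (m + 1) → W.H X), (∀ i, x i ∈ W.gr X (d i)) ∧
    ∑ i, d i = N ∧ z = ten W X m x}

lemma gr_pw : ∀ (m : ℕ) {N : ℕ} {c : W.H (pw X m)}, c ∈ W.gr (pw X m) N →
    c ∈ Submodule.span W.K (tenSet W X m N) := by
  intro m
  induction m with
  | zero =>
    intro N c hc
    exact Submodule.subset_span ⟨fun _ => N, fun _ => c, fun _ => hc, by simp, rfl⟩
  | succ m ih =>
    intro N c hc
    have h1 := gr_prod (W := W) (P := pw X m) (Q := X) hc
    let T : Set (W.H ((pw X m).prod X)) := tenSet W X (m + 1) N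
    have key : Submodule.span W.K {z : W.H ((pw X m).prod X) | ∃ i j, i + j = N ∧
        ∃ a ∈ W.gr (pw X m) i, ∃ b ∈ W.gr X j, z = xp W a b} ≤ Submodule.span W.K T := by
      refine Submodule.span_le.2 ?_
      rintro _ ⟨i, j, hij, a, ha, b, hb, rfl⟩
      refine span_xp (S := tenSet W X m i) (T := {b}) ?_ (ih ha) (Submodule.subset_span rfl)
      rintro _ ⟨d, x, hx, hd, rfl⟩ z hz
      obtain rfl : z = b := hz
      apply Submodule.subset_span
      refine ⟨Fin.snoc (α := fun _ => ℕ) d j, Fin.snoc (α := fun _ => W.H X) x z, ?_, ?_, ?_⟩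
      · intro l
        refine Fin.lastCases ?_ (fun l => ?_) l
        · rw [Fin.snoc_last, Fin.snoc_last]; exact hb
        · rw [Fin.snoc_castSucc, Fin.snoc_castSucc]; exact hx l
      · rw [Fin.sum_univ_castSucc]
        simp only [Fin.snoc_castSucc, Fin.snoc_last]
        rw [hd, hij]
      · rw [ten_succ, Fin.snoc_last, Fin.init_snoc]
    exact key h1

/-- The tensor power of an operator. -/
noncomputable def powOp (W : WeilCohomology.{u, v} ops) (X : 𝒱.Obj)
    (φ : Module.End W.K (W.H X)) : ∀ m : ℕ, Module.End W.K (W.H (pw X m))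
  | 0 => φ
  | m + 1 => extOp W (powOp W X φ m) φ

lemma powOp_ten (φ : Module.End W.K (W.H X)) : ∀ {m : ℕ} (x : Fin (m + 1) → W.H X),
    powOp W X φ m (ten W X m x) = ten W X m (fun i => φ (x i)) := by
  intro m
  induction m with
  | zero => intro x; rfl
  | succ m ih =>
    intro x
    change extOp W (powOp W X φ m) φ (W.map (fst (pw X m) X) (ten W X m (Fin.init x)) *
      W.map (snd (pw X m) X) (x (Fin.last (m + 1)))) = _
    rw [extOp_tmul, ih]
    rfl

lemma powOp_mem (T : Sys W) {φ : Module.End W.K (W.H X)} (hφ : φ ∈ T.Op X X) :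
    ∀ m : ℕ, powOp W X φ m ∈ T.Op (pw X m) (pw X m) := by
  intro m
  induction m with
  | zero => exact hφ
  | succ m ih => exact Sys.Op.ext ih hφ

lemma extOp_xp (φ : Module.End W.K (W.H P)) (ψ : Module.End W.K (W.H Q)) (a : W.H P) (b : W.H Q) :
    extOp W φ ψ (xp W a b) = xp W (φ a) (ψ b) := extOp_tmul φ ψ a b

lemma ten_zero_of {m : ℕ} {x : Fin (m + 1) → W.H X} {i : Fin (m + 1)} (h : x i = 0) :
    ten W X m x = 0 := by
  have := (tenM W X m).map_coord_zero i h
  exact this

/-- The external products of two families of classes of degree `d`. -/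
def pureSet (W : WeilCohomology.{u, v} ops) (X : 𝒱.Obj) (m d : ℕ) :
    Set (W.H ((pw X m).prod (pw X m))) :=
  {z | ∃ x y : Fin (m + 1) → W.H X, (∀ i, x i ∈ W.gr X d) ∧ (∀ i, y i ∈ W.gr X d) ∧
    z = xp W (ten W X m x) (ten W X m y)}

lemma detCl_gr {m d : ℕ} {x : Fin (m + 1) → W.H X} (hx : ∀ i, x i ∈ W.gr X d) :
    detCl W X m x ∈ W.gr (pw X m) ((m + 1) * d) := by
  rw [detCl_eq]
  refine Submodule.sum_mem _ fun σ _ => Submodule.smul_mem _ _ ?_
  have := ten_gr (W := W) (m := m) (d := fun _ => d) (x := x ∘ σ) fun i => hx _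
  simpa using this

/-- The trace against a square of a determinant class. -/
lemma tr_xp_xp {m d' : ℕ} {a b : W.H (pw X m)} {i : ℕ} (hb : b ∈ PH W (pw X m) i)
    {f : Fin (m + 1) → W.H X} (hf : ∀ i, f i ∈ W.gr X d') :
    W.tr ((pw X m).prod (pw X m)) (xp W a b * xp W (detCl W X m f) (detCl W X m f)) =
      (-1 : W.K) ^ (i * ((m + 1) * d')) *
        (W.tr (pw X m) (a * detCl W X m f) * W.tr (pw X m) (b * detCl W X m f)) :=
  tr_xp_mul _ _ _ _ hb (PH.of (detCl_gr hf))

/-- Projection to the extreme Kunneth component. -/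
lemma exists_pure {d : ℕ} {φ : Module.End W.K (W.H X)} (hlow : ∀ i < d, ∀ x ∈ W.gr X i, φ x = 0)
    (hmid : ∀ x ∈ W.gr X d, φ x = x) {m : ℕ} {c : W.H ((pw X m).prod (pw X m))}
    (hc : c ∈ W.gr _ (2 * ((m + 1) * d))) {d' : ℕ} (hdd : d + d' = 2 * X.dim)
    {f : Fin (m + 1) → W.H X} (hf : ∀ i, f i ∈ W.gr X d') :
    extOp W (powOp W X φ m) (powOp W X φ m) c ∈ Submodule.span W.K (pureSet W X m d) ∧
    W.tr _ (extOp W (powOp W X φ m) (powOp W X φ m) c *
      xp W (detCl W X m f) (detCl W X m f)) =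
      W.tr _ (c * xp W (detCl W X m f) (detCl W X m f)) := by
  have h1 := gr_prod (W := W) (P := pw X m) (Q := pw X m) hc
  have h2 : c ∈ Submodule.span W.K {z | ∃ (e e' : Fin (m + 1) → ℕ) (x y : Fin (m + 1) → W.H X),
      (∀ i, x i ∈ W.gr X (e i)) ∧ (∀ i, y i ∈ W.gr X (e' i)) ∧
      ∑ i, e i + ∑ i, e' i = 2 * ((m + 1) * d) ∧ z = xp W (ten W X m x) (ten W X m y)} := by
    refine Submodule.span_le.2 ?_ h1
    rintro _ ⟨i, j, hij, a, ha, b, hb, rfl⟩
    refine span_xp ?_ (gr_pw m ha) (gr_pw m hb)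
    rintro _ ⟨e, x, hx, he, rfl⟩ _ ⟨e', y, hy, he', rfl⟩
    exact Submodule.subset_span ⟨e, e', x, y, hx, hy, by rw [he, he', hij], rfl⟩
  clear h1 hc
  induction h2 using Submodule.span_induction with
  | zero =>
    rw [map_zero]
    exact ⟨Submodule.zero_mem _, rfl⟩
  | add a b _ _ ha hb =>
    rw [map_add]
    refine ⟨Submodule.add_mem _ ha.1 hb.1, ?_⟩
    rw [add_mul, add_mul, map_add, map_add, ha.2, hb.2]
  | smul r a _ ha =>
    rw [map_smul]
    refine ⟨Submodule.smul_mem _ _ ha.1, ?_⟩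
    rw [smul_mul_assoc, smul_mul_assoc, map_smul, map_smul, ha.2]
  | mem z hz =>
    obtain ⟨e, e', x, y, hx, hy, hsum, rfl⟩ := hz
    rw [extOp_xp, powOp_ten, powOp_ten]
    by_cases hall : (∀ i, e i = d) ∧ (∀ i, e' i = d)
    · have h3 : (fun i => φ (x i)) = x := by
        funext i; exact hmid _ (by have := hx i; rwa [hall.1 i] at this)
      have h4 : (fun i => φ (y i)) = y := by
        funext i; exact hmid _ (by have := hy i; rwa [hall.2 i] at this)
      rw [h3, h4]
      refine ⟨Submodule.subset_span ⟨x, y, fun i => ?_, fun i => ?_, rfl⟩, rfl⟩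
      · have := hx i; rwa [hall.1 i] at this
      · have := hy i; rwa [hall.2 i] at this
    · -- some degree is smaller than `d`
      have hlt : (∃ i, e i < d) ∨ (∃ i, e' i < d) := by
        by_contra hcon
        push Not at hcon
        obtain ⟨g1, g2⟩ := hcon
        apply hall
        have s1 : ∑ i : Fin (m + 1), d ≤ ∑ i, e i := Finset.sum_le_sum fun i _ => g1 i
        have s2 : ∑ i : Fin (m + 1), d ≤ ∑ i, e' i := Finset.sum_le_sum fun i _ => g2 i
        have s3 : ∑ i : Fin (m + 1), d = (m + 1) * d := by simp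
        rw [s3] at s1 s2
        have t1 : ∑ i : Fin (m + 1), d = ∑ i, e i := by rw [s3]; omega
        have t2 : ∑ i : Fin (m + 1), d = ∑ i, e' i := by rw [s3]; omega
        constructor
        · intro i
          exact ((Finset.sum_eq_sum_iff_of_le fun i _ => g1 i).1 t1 i (Finset.mem_univ i)).symm
        · intro i
          exact ((Finset.sum_eq_sum_iff_of_le fun i _ => g2 i).1 t2 i (Finset.mem_univ i)).symm
      have hz : xp W (ten W X m fun i => φ (x i)) (ten W X m fun i => φ (y i)) = 0 := by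
        rcases hlt with ⟨i, hi⟩ | ⟨i, hi⟩
        · rw [ten_zero_of (x := fun i => φ (x i)) (i := i) (hlow _ hi _ (hx i)), xp, map_zero,
            zero_mul]
        · rw [ten_zero_of (x := fun i => φ (y i)) (i := i) (hlow _ hi _ (hy i)), xp, map_zero,
            mul_zero]
      rw [hz]
      refine ⟨Submodule.zero_mem _, ?_⟩
      have hyP : ten W X m y ∈ PH W (pw X m) (∑ i, e' i) := PH.of (ten_gr hy)
      rw [zero_mul, map_zero, tr_xp_xp hyP hf]
      have hv : ∀ (e : Fin (m + 1) → ℕ) (x : Fin (m + 1) → W.H X), (∀ i, x i ∈ W.gr X (e i)) →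
          ∀ i, e i < d → W.tr (pw X m) (ten W X m x * detCl W X m f) = 0 := by
        intro e x hx i hi
        rw [detCl_eq, Finset.mul_sum, map_sum]
        apply Finset.sum_eq_zero
        intro σ _
        rw [mul_smul_comm, map_smul, tr_ten (d := e) (d' := fun _ => d') (y := f ∘ σ) hx
          (fun i => hf _), Finset.prod_eq_zero (Finset.mem_univ i), mul_zero, smul_zero]
        exact W.tr_eq_zero (W.mul_mem (hx i) (hf _)) (by omega)
      rcases hlt with ⟨i, hi⟩ | ⟨i, hi⟩
      · rw [hv e x hx i hi, zero_mul, mul_zero]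
      · rw [hv e' y hy i hi, mul_zero, mul_zero]

/-- The alternation of a sum of external products is a multiple of the square of the determinant
class, and the trace is multiplied by a non-zero constant. -/
lemma alt_pure {d m : ℕ} {e : Fin (m + 1) → W.H X} (he : IsBasisOf W X d e) {d' : ℕ}
    {f : Fin (m + 1) → W.H X} (hf : ∀ i, f i ∈ W.gr X d')
    {c : W.H ((pw X m).prod (pw X m))} (hc : c ∈ Submodule.span W.K (pureSet W X m d)) :
    (∃ r : W.K, extOp W (altOp W X m d) (altOp W X m d) c =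
      r • xp W (detCl W X m e) (detCl W X m e)) ∧
    W.tr _ (extOp W (altOp W X m d) (altOp W X m d) c *
      xp W (detCl W X m f) (detCl W X m f)) =
      (((m + 1).factorial : W.K) ^ 2) * W.tr _ (c * xp W (detCl W X m f) (detCl W X m f)) := by
  induction hc using Submodule.span_induction with
  | zero =>
    rw [map_zero]
    refine ⟨⟨0, by rw [zero_smul]⟩, ?_⟩
    rw [zero_mul, map_zero, mul_zero]
  | add a b _ _ ha hb =>
    obtain ⟨⟨r, hr⟩, ha⟩ := ha
    obtain ⟨⟨s, hs⟩, hb⟩ := hb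
    refine ⟨⟨r + s, by rw [map_add, hr, hs, add_smul]⟩, ?_⟩
    rw [map_add, add_mul, add_mul, map_add, map_add, ha, hb, mul_add]
  | smul t a _ ha =>
    obtain ⟨⟨r, hr⟩, ha⟩ := ha
    refine ⟨⟨t * r, by rw [map_smul, hr, smul_smul]⟩, ?_⟩
    rw [map_smul, smul_mul_assoc, smul_mul_assoc, map_smul, map_smul, ha, smul_eq_mul,
      smul_eq_mul]
    ring
  | mem z hz =>
    obtain ⟨x, y, hx, hy, rfl⟩ := hz
    rw [extOp_xp, altOp_ten fun i => PH.of (hx i), altOp_ten fun i => PH.of (hy i)]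
    constructor
    · obtain ⟨r, hr⟩ := he.detCl hx
      obtain ⟨s, hs⟩ := he.detCl hy
      refine ⟨r * s, ?_⟩
      rw [hr, hs, xp_smul_left, xp_smul_right, smul_smul]
    · have h1 : detCl W X m y ∈ PH W (pw X m) ((m + 1) * d) := PH.of (detCl_gr hy)
      have h2 : ten W X m y ∈ PH W (pw X m) ((m + 1) * d) := ten_mem fun i => PH.of (hy i)
      rw [tr_xp_xp h1 hf, tr_det_det hx hf, tr_det_det hy hf, tr_xp_xp h2 hf]
      ring

/-- **Determinant classes from periods.** -/
theorem det_mem_of_period {T : Sys W} {d : ℕ} {φ : Module.End W.K (W.H X)} (hφ : φ ∈ T.Op X X)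
    (hlow : ∀ i < d, ∀ x ∈ W.gr X i, φ x = 0)
    (hmid : ∀ x ∈ W.gr X d, φ x = x) {m : ℕ} {c : W.H ((pw X m).prod (pw X m))}
    (hcT : c ∈ T.C _) (hc : c ∈ W.gr _ (2 * ((m + 1) * d))) {d' : ℕ} (hdd : d + d' = 2 * X.dim)
    {f : Fin (m + 1) → W.H X} (hf : ∀ i, f i ∈ W.gr X d')
    (hper : W.tr _ (c * xp W (detCl W X m f) (detCl W X m f)) ≠ 0)
    {e : Fin (m + 1) → W.H X} (he : IsBasisOf W X d e) :
    xp W (detCl W X m e) (detCl W X m e) ∈ T.C ((pw X m).prod (pw X m)) := by
  obtain ⟨h1, h2⟩ := exists_pure hlow hmid hc hdd hf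
  obtain ⟨⟨r, hr⟩, h3⟩ := alt_pure he hf h1
  have h4 : extOp W (powOp W X φ m) (powOp W X φ m) c ∈ T.C _ :=
    Sys.Op.apply (fun _ => le_rfl) (Sys.Op.ext (powOp_mem T hφ m) (powOp_mem T hφ m)) hcT
  have h5 : extOp W (altOp W X m d) (altOp W X m d)
      (extOp W (powOp W X φ m) (powOp W X φ m) c) ∈ T.C _ :=
    Sys.Op.apply (fun _ => le_rfl) (Sys.Op.ext (altOp_mem T m d) (altOp_mem T m d)) h4
  have hr0 : r ≠ 0 := by
    rintro rfl
    rw [hr, zero_smul, zero_mul, map_zero, h2] at h3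
    have h6 : (((m + 1).factorial : ℕ) : W.K) ≠ 0 := Nat.cast_ne_zero.2 (Nat.factorial_ne_zero _)
    exact (mul_ne_zero (pow_ne_zero 2 h6) hper) h3.symm
  rw [hr] at h5
  have h7 := Submodule.smul_mem (T.C _) r⁻¹ h5
  rwa [smul_smul, inv_mul_cancel₀ hr0, one_smul] at h7

end Pool.Agent.Q67.Det
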