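import Pool.Agent.Y133.Half.PwDefs
import Pool.Agent.H914R2.KDefs2

/-!
# Determinant classes: definitions
-/

open CategoryTheory AlgebraicGeometry

universe u v

namespace Pool.Agent.Q67.Det

open Pool.Agent.H914 Pool.Agent.H914.VarClass Pool.Agent.H914.VarClass.Obj
  Pool.Agent.H914.WeilCohomology Pool.Agent.Y133.Half

variable {k : Type u} [Field k] {𝒱 : VarClass k} {ops : CycleOps 𝒱}

/-- The external product of the classes `x` on `Y` and `y` on `Z`. -/
noncomputable def cross (W : WeilCohomology.{u, v} ops) {Y Z : 𝒱.Obj} (x : W.H Y) (y : W.H Z) :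
    W.H (Y.prod Z) :=
  W.map (fst Y Z) x * W.map (snd Y Z) y

/-- The external product `x 0 × ... × x m` of classes on `X`, a class on the product `X^(m+1)`. -/
noncomputable def ten (W : WeilCohomology.{u, v} ops) (X : 𝒱.Obj) :
    ∀ m : ℕ, (Fin (m + 1) → W.H X) → W.H (pw X m)
  | 0, x => x 0
  | m + 1, x => cross W (ten W X m (Fin.init x)) (x (Fin.last (m + 1)))

/-- The determinant class `∑ sgn(σ) e (σ 0) × ... × e (σ m)` on `X^(m+1)`. -/
noncomputable def detCl (W : WeilCohomology.{u, v} ops) (X : 𝒱.Obj) (m : ℕ)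
    (e : Fin (m + 1) → W.H X) : W.H (pw X m) :=
  ∑ σ : Equiv.Perm (Fin (m + 1)), (Equiv.Perm.sign σ) • ten W X m (e ∘ σ)

/-- The family `e` is a basis of `H^i(X)`. -/
def IsBasisOf (W : WeilCohomology.{u, v} ops) (X : 𝒱.Obj) (i : ℕ) {m : ℕ}
    (e : Fin (m + 1) → W.H X) : Prop :=
  LinearIndependent W.K e ∧ Submodule.span W.K (Set.range e) = W.gr X i

/-- The determinant class `ω` of (a basis of) `H^(n+c)(X)`, `n = dim X`, satisfies: the class
`ω × ω` on `X^b × X^b`, where `b` is the Betti number, has a non-zero period over some algebraic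
cycle (of codimension `b (n - c)`). (The condition is empty if `b = 0`.) -/
def DetPeriod (W : WeilCohomology.{u, v} ops) (X : 𝒱.Obj) (c : ℕ) : Prop :=
  ∀ (m : ℕ) (e : Fin (m + 1) → W.H X), IsBasisOf W X (X.dim + c) e →
    ∃ z, ((pw X m).prod (pw X m)).IsCyc ((m + 1) * (X.dim - c)) z ∧
      W.tr ((pw X m).prod (pw X m))
        (W.cl _ z * cross W (detCl W X m e) (detCl W X m e)) ≠ 0

/-- The determinant class `ω` of (a basis of) `H^(n-c)(X)`, `n = dim X`, satisfies: the class
`ω × ω` on `X^b × X^b`, where `b` is the Betti number, is a linear combination of classes of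
algebraic cycles. (The condition is empty if `b = 0`.) -/
def DetAlgebraic (W : WeilCohomology.{u, v} ops) (X : 𝒱.Obj) (c : ℕ) : Prop :=
  ∀ (m : ℕ) (e : Fin (m + 1) → W.H X), IsBasisOf W X (X.dim - c) e →
    cross W (detCl W X m e) (detCl W X m e) ∈
      spanCycles W ((pw X m).prod (pw X m)) (((m + 1) * (X.dim - c) : ℕ) : ℤ)

end Pool.Agent.Q67.Det
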