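import Pool.Agent.Q67.Det.Core
import Pool.Agent.Y133.Half.TateSS

/-!
# From determinant classes to inverses of the Lefschetz operator
-/

open CategoryTheory AlgebraicGeometry

universe u v

namespace Pool.Agent.Q67.Det

open Pool.Agent.H914 Pool.Agent.H914.VarClass Pool.Agent.H914.VarClass.Obj
  Pool.Agent.H914.WeilCohomology Pool.Agent.Y133.Half Pool.Agent.H281R3.HT
  Pool.Agent.W536.RR

variable {k : Type u} [Field k] {𝒱 : VarClass k} {ops : CycleOps 𝒱}
  {W : WeilCohomology.{u, v} ops} {X Y Z P Q : 𝒱.Obj}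

lemma xp_sum_left {ι : Type*} (s : Finset ι) (x : ι → W.H P) (y : W.H Q) :
    xp W (∑ i ∈ s, x i) y = ∑ i ∈ s, xp W (x i) y := by
  rw [xp, map_sum, Finset.sum_mul]; rfl

lemma xp_sum_right {ι : Type*} (s : Finset ι) (x : W.H P) (y : ι → W.H Q) :
    xp W x (∑ i ∈ s, y i) = ∑ i ∈ s, xp W x (y i) := by
  rw [xp, map_sum, Finset.mul_sum]; rfl

lemma perm_eq_of_succ {m : ℕ} {σ τ : Equiv.Perm (Fin (m + 1))}
    (h : ∀ i : Fin m, σ i.succ = τ i.succ) : σ = τ := by
  apply Equiv.ext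
  intro j
  refine Fin.cases ?_ h j
  by_contra hne
  obtain ⟨l, hl⟩ := τ.surjective (σ 0)
  have hl0 : l ≠ 0 := by
    rintro rfl
    exact hne hl.symm
  obtain ⟨i, rfl⟩ := Fin.exists_succ_eq.2 hl0
  rw [← h i] at hl
  exact Fin.succ_ne_zero i (σ.injective hl)

/-- The complete contraction of a pair of dual determinant classes. -/
lemma conAll_dual {δ : W.H X} (hδ : δ ∈ PH W X 0) {d m : ℕ} {e e' : Fin (m + 1) → W.H X}
    (he : ∀ i, e i ∈ PH W X d) (he' : ∀ i, e' i ∈ PH W X d)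
    (hdual : ∀ i j, W.tr X (e i * e' j * δ) = if i = j then 1 else 0) :
    conAll W δ m (xp W (detCl W X m e) (detCl W X m e')) =
      (-1 : W.K) ^ (sgC d m) • ∑ σ : Equiv.Perm (Fin (m + 1)), xp W (e (σ 0)) (e' (σ 0)) := by
  rw [detCl_eq, detCl_eq, xp_sum_left, map_sum, Finset.smul_sum]
  refine Finset.sum_congr rfl fun σ _ => ?_
  rw [xp_sum_right, map_sum, Finset.sum_eq_single σ]
  · rw [xp_smul_left, xp_smul_right, smul_smul, sg_mul_self, one_smul,
      conAll_ten (x := e ∘ σ) (y := e' ∘ σ) hδ (fun i => he _) (fun i => he' _)]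
    congr 1
    rw [Finset.prod_eq_one, mul_one]
    intro i _
    simp [hdual]
  · intro τ _ hτ
    rw [xp_smul_left, xp_smul_right, map_smul, map_smul,
      conAll_ten (x := e ∘ σ) (y := e' ∘ τ) hδ (fun i => he _) (fun i => he' _)]
    obtain ⟨i, hi⟩ : ∃ i : Fin m, σ i.succ ≠ τ i.succ := by
      by_contra hcon
      push Not at hcon
      exact hτ (perm_eq_of_succ hcon).symm
    rw [Finset.prod_eq_zero (Finset.mem_univ i), mul_zero, zero_smul, smul_zero, smul_zero]
    simp [hdual, hi]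
  · intro h
    exact absurd (Finset.mem_univ σ) h

/-- Poincare duality in terms of a basis, on the left. -/
lemma nondeg_of_basis' {i j : ℕ} (hij : i + j = 2 * X.dim) {m : ℕ} {f : Fin (m + 1) → W.H X}
    (hf : IsBasisOf W X j f) {a : W.H X} (ha : a ∈ W.gr X i)
    (h : ∀ l, W.tr X (f l * a) = 0) : a = 0 := by
  apply nondeg_of_basis hij hf ha
  intro l
  rw [W.comm ha (hf.mem l), map_smul, h, smul_zero]

/-- From determinant classes to injective operators. -/
theorem inj_of_det {T : Sys W} {δ : W.H X} (hδT : δ ∈ T.C X) {c : ℕ} (hc : c ≤ X.dim)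
    (hδ : δ ∈ W.gr X (2 * c)) (hinj : ∀ a ∈ W.gr X (X.dim - c), a * δ = 0 → a = 0)
    {m : ℕ} {e : Fin (m + 1) → W.H X} (he : IsBasisOf W X (X.dim - c) e)
    (hdet : xp W (detCl W X m e) (detCl W X m e) ∈ T.C ((pw X m).prod (pw X m))) :
    ∃ γ ∈ T.C (X.prod X), γ ∈ W.gr (X.prod X) (2 * (X.dim - c)) ∧
      ∀ z ∈ W.gr X (X.dim + c), W.corr γ z = 0 → z = 0 := by
  classical
  set d := X.dim - c with hd
  -- the Gram matrix
  set G : Matrix (Fin (m + 1)) (Fin (m + 1)) W.K :=
    Matrix.of fun i j => W.tr X (e i * e j * δ) with hG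
  have hGdet : G.det ≠ 0 := by
    intro h0
    obtain ⟨v, hv, hv'⟩ := Matrix.exists_mulVec_eq_zero_iff.2 h0
    apply hv
    have h1 : ∑ l, v l • e l = 0 := by
      apply hinj _ (Submodule.sum_mem _ fun l _ => Submodule.smul_mem _ _ (he.mem l))
      apply nondeg_of_basis' (i := d + 2 * c) (j := d) (by omega) he
        (W.mul_mem (Submodule.sum_mem _ fun l _ => Submodule.smul_mem _ _ (he.mem l)) hδ)
      intro r
      have h2 := congrFun hv' r
      rw [Pi.zero_apply, Matrix.mulVec, dotProduct] at h2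
      rw [← mul_assoc, Finset.mul_sum, Finset.sum_mul, map_sum, ← h2]
      refine Finset.sum_congr rfl fun l _ => ?_
      rw [mul_smul_comm, smul_mul_assoc, map_smul, smul_eq_mul, mul_comm]
      rfl
    funext l
    exact Fintype.linearIndependent_iff.1 he.1 v h1 l
  have hGu : IsUnit G.det := isUnit_iff_ne_zero.2 hGdet
  -- the dual family
  set e' : Fin (m + 1) → W.H X := fun j => ∑ l, G⁻¹ l j • e l with he'
  have he'd : ∀ j, e' j ∈ W.gr X d := fun j =>
    Submodule.sum_mem _ fun l _ => Submodule.smul_mem _ _ (he.mem l)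
  have hdual : ∀ i j, W.tr X (e i * e' j * δ) = if i = j then 1 else 0 := by
    intro i j
    have h1 : W.tr X (e i * e' j * δ) = (G * G⁻¹) i j := by
      rw [Matrix.mul_apply, he', Finset.mul_sum, Finset.sum_mul, map_sum]
      refine Finset.sum_congr rfl fun l _ => ?_
      rw [mul_smul_comm, smul_mul_assoc, map_smul, smul_eq_mul, mul_comm]
      rfl
    rw [h1, Matrix.mul_nonsing_inv _ hGu, Matrix.one_apply]
  -- the determinant class of the dual family
  obtain ⟨r, hr⟩ := he.detCl he'd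
  have h1 : xp W (detCl W X m e) (detCl W X m e') ∈ T.C ((pw X m).prod (pw X m)) := by
    rw [hr, xp_smul_right]
    exact Submodule.smul_mem _ _ hdet
  have hδ0 : δ ∈ PH W X 0 := PH.of' (by omega) hδ
  have h2 := conAll_mem T hδT m h1
  have hePH : ∀ i, e i ∈ PH W X d := fun i => PH.of (he.mem i)
  have he'PH : ∀ i, e' i ∈ PH W X d := fun i => PH.of (he'd i)
  rw [conAll_dual hδ0 hePH he'PH hdual] at h2
  have hs : ((-1 : W.K) ^ (sgC d m)) * ((-1 : W.K) ^ (sgC d m)) = 1 := by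
    rw [← mul_pow]; simp
  have h3 : ∑ σ : Equiv.Perm (Fin (m + 1)), xp W (e (σ 0)) (e' (σ 0)) ∈ T.C (X.prod X) := by
    have := Submodule.smul_mem (T.C (X.prod X)) ((-1 : W.K) ^ (sgC d m)) h2
    rwa [smul_smul, hs, one_smul] at this
  refine ⟨_, h3, ?_, ?_⟩
  · refine Submodule.sum_mem _ fun σ _ => ?_
    rw [two_mul]
    exact W.mul_mem (W.map_mem _ (he.mem _)) (W.map_mem _ (he'd _))
  intro z hz h0
  apply nondeg_of_basis' (i := X.dim + c) (j := d) (by omega) he hz
  intro i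
  have h4 : ∀ (c' : W.H (X.prod X)), W.corr c' z = corrL W X X c' z := fun _ => rfl
  rw [h4, map_sum, LinearMap.sum_apply] at h0
  have h5 : ∀ σ ∈ (Finset.univ : Finset (Equiv.Perm (Fin (m + 1)))),
      corrL W X X (xp W (e (σ 0)) (e' (σ 0))) z =
        ((-1 : W.K) ^ (d * (X.dim + c)) * W.tr X (e (σ 0) * z)) • e' (σ 0) := by
    intro σ _
    rw [← h4, corr_xp _ (he'PH _) (PH.of hz)]
  rw [Finset.sum_congr rfl h5] at h0
  have h6 := congrArg (fun w => W.tr X (e i * w * δ)) h0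
  simp only [mul_zero, zero_mul, map_zero, Finset.mul_sum, Finset.sum_mul, map_sum,
    mul_smul_comm, smul_mul_assoc, map_smul, hdual, smul_eq_mul, mul_ite, mul_one] at h6
  rw [← Finset.sum_filter] at h6
  have h7 : ∀ σ ∈ (Finset.univ : Finset (Equiv.Perm (Fin (m + 1)))).filter (fun σ => i = σ 0),
      (-1 : W.K) ^ (d * (X.dim + c)) * W.tr X (e (σ 0) * z) =
        (-1 : W.K) ^ (d * (X.dim + c)) * W.tr X (e i * z) := by
    intro σ hσ
    rw [← (Finset.mem_filter.1 hσ).2]
  rw [Finset.sum_congr rfl h7, Finset.sum_const, nsmul_eq_mul] at h6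
  have h8 : (((Finset.univ : Finset (Equiv.Perm (Fin (m + 1)))).filter
      (fun σ => i = σ 0)).card : W.K) ≠ 0 := by
    rw [Nat.cast_ne_zero, Finset.card_ne_zero]
    refine ⟨Equiv.swap 0 i, ?_⟩
    simp
  rcases mul_eq_zero.1 h6 with h | h
  · exact absurd h h8
  · rcases mul_eq_zero.1 h with h | h
    · exact absurd h (pow_ne_zero _ (by norm_num))
    · exact h

end Pool.Agent.Q67.Det
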