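import Pool.Agent.Q67.Det.Ten

/-!
# Multilinearity, traces, and alternation
-/

open CategoryTheory AlgebraicGeometry

universe u v

namespace Pool.Agent.Q67.Det

open Pool.Agent.H914 Pool.Agent.H914.VarClass Pool.Agent.H914.VarClass.Obj
  Pool.Agent.H914.WeilCohomology Pool.Agent.Y133.Half

variable {k : Type u} [Field k] {𝒱 : VarClass k} {ops : CycleOps 𝒱}
  {W : WeilCohomology.{u, v} ops} {X Y Z : 𝒱.Obj}

lemma init_upd_last {A : Type*} {m : ℕ} (x : Fin (m + 1) → A) (a : A) :
    Fin.init (Function.update x (Fin.last m) a) = Fin.init x :=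
  Fin.init_update_last (α := fun _ : Fin (m + 1) => A) x a

lemma init_upd_cast {A : Type*} {m : ℕ} (x : Fin (m + 1) → A) (i : Fin m) (a : A) :
    Fin.init (Function.update x i.castSucc a) = Function.update (Fin.init x) i a :=
  Fin.init_update_castSucc (α := fun _ : Fin (m + 1) => A) x i a

lemma ten_add : ∀ (m : ℕ) (x : Fin (m + 1) → W.H X) (i : Fin (m + 1)) (a b : W.H X),
    ten W X m (Function.update x i (a + b)) = ten W X m (Function.update x i a) +
      ten W X m (Function.update x i b) := by
  intro m
  induction m with
  | zero =>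
    intro x i a b
    obtain rfl : i = 0 := by omega
    simp only [ten_zero, Function.update_self]
    rfl
  | succ m ih =>
    intro x i a b
    refine Fin.lastCases ?_ ?_ i
    · rw [ten_succ, ten_succ, ten_succ, init_upd_last, init_upd_last, init_upd_last,
        Function.update_self, Function.update_self, Function.update_self, xp_add_right]
      rfl
    · intro j
      have hne : Fin.last (m + 1) ≠ j.castSucc := (Fin.castSucc_lt_last j).ne'
      rw [ten_succ, ten_succ, ten_succ, init_upd_cast, init_upd_cast, init_upd_cast,
        Function.update_of_ne hne, Function.update_of_ne hne, Function.update_of_ne hne, ih,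
        xp_add_left]
      rfl

lemma ten_smul : ∀ (m : ℕ) (x : Fin (m + 1) → W.H X) (i : Fin (m + 1)) (r : W.K) (a : W.H X),
    ten W X m (Function.update x i (r • a)) = r • ten W X m (Function.update x i a) := by
  intro m
  induction m with
  | zero =>
    intro x i r a
    obtain rfl : i = 0 := by omega
    simp only [ten_zero, Function.update_self]
    rfl
  | succ m ih =>
    intro x i r a
    refine Fin.lastCases ?_ ?_ i
    · rw [ten_succ, ten_succ, init_upd_last, init_upd_last,
        Function.update_self, Function.update_self, xp_smul_right]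
      rfl
    · intro j
      have hne : Fin.last (m + 1) ≠ j.castSucc := (Fin.castSucc_lt_last j).ne'
      rw [ten_succ, ten_succ, init_upd_cast, init_upd_cast,
        Function.update_of_ne hne, Function.update_of_ne hne, ih, xp_smul_left]
      rfl

lemma ten_add' (W : WeilCohomology.{u, v} ops) (X : 𝒱.Obj) (m : ℕ)
    [inst : DecidableEq (Fin (m + 1))] (x : Fin (m + 1) → W.H X)
    (i : Fin (m + 1)) (a b : W.H X) :
    ten W X m (Function.update x i (a + b)) = ten W X m (Function.update x i a) +
      ten W X m (Function.update x i b) := by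
  have h : inst = instDecidableEqFin (m + 1) := Subsingleton.elim _ _
  rw [h]
  exact ten_add m x i a b

lemma ten_smul' (W : WeilCohomology.{u, v} ops) (X : 𝒱.Obj) (m : ℕ)
    [inst : DecidableEq (Fin (m + 1))] (x : Fin (m + 1) → W.H X)
    (i : Fin (m + 1)) (r : W.K) (a : W.H X) :
    ten W X m (Function.update x i (r • a)) = r • ten W X m (Function.update x i a) := by
  have h : inst = instDecidableEqFin (m + 1) := Subsingleton.elim _ _
  rw [h]
  exact ten_smul m x i r a

/-- External products as a multilinear map. -/
noncomputable def tenM (W : WeilCohomology.{u, v} ops) (X : 𝒱.Obj) (m : ℕ) :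
    MultilinearMap W.K (fun _ : Fin (m + 1) => W.H X) (W.H (pw X m)) where
  toFun := ten W X m
  map_update_add' := ten_add' W X m
  map_update_smul' := ten_smul' W X m

lemma tenM_apply (m : ℕ) (x : Fin (m + 1) → W.H X) : tenM W X m x = ten W X m x := rfl

/-- The determinant classes as an alternating map. -/
noncomputable def detM (W : WeilCohomology.{u, v} ops) (X : 𝒱.Obj) (m : ℕ) :
    (W.H X) [⋀^Fin (m + 1)]→ₗ[W.K] (W.H (pw X m)) :=
  MultilinearMap.alternatization (tenM W X m)

lemma detM_apply (m : ℕ) (x : Fin (m + 1) → W.H X) : detM W X m x = detCl W X m x := by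
  rw [detM, MultilinearMap.alternatization_apply]
  rfl

/-- Determinant classes of families in the span of a basis. -/
lemma detCl_smul {m : ℕ} {V : Submodule W.K (W.H X)} (e : Module.Basis (Fin (m + 1)) W.K V)
    (x : Fin (m + 1) → V) : detCl W X m (fun i => (x i : W.H X)) =
      e.det x • detCl W X m (fun i => (e i : W.H X)) := by
  have h : (detM W X m).compLinearMap V.subtype =
      (LinearMap.toSpanSingleton W.K (W.H (pw X m))
        (detCl W X m (fun i => (e i : W.H X)))).compAlternatingMap e.det := by
    refine Module.Basis.ext_alternating e fun v hv => ?_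
    obtain ⟨σ, rfl⟩ : ∃ σ : Equiv.Perm (Fin (m + 1)), v = σ :=
      ⟨Equiv.ofBijective v (Finite.injective_iff_bijective.1 hv), rfl⟩
    have h1 : (fun i => e (σ i)) = e ∘ σ := rfl
    rw [h1, AlternatingMap.map_perm, LinearMap.compAlternatingMap_apply, AlternatingMap.map_perm,
      Module.Basis.det_self, LinearMap.map_smul_of_tower, LinearMap.toSpanSingleton_apply, one_smul,
      AlternatingMap.compLinearMap_apply, detM_apply]
    rfl
  have h1 := congrArg (fun f : V [⋀^Fin (m + 1)]→ₗ[W.K] (W.H (pw X m)) => f x) h
  simp only [AlternatingMap.compLinearMap_apply, LinearMap.compAlternatingMap_apply,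
    LinearMap.toSpanSingleton_apply] at h1
  rw [← h1, detM_apply]
  rfl

/-- ten of classes of a given parity -/
lemma ten_mem {d : ℕ} : ∀ {m : ℕ} {x : Fin (m + 1) → W.H X}, (∀ i, x i ∈ PH W X d) →
    ten W X m x ∈ PH W (pw X m) ((m + 1) * d) := by
  intro m
  induction m with
  | zero => intro x hx; rw [zero_add, one_mul]; exact hx 0
  | succ m ih =>
    intro x hx
    have := xp_mem (W := W) (ih (x := Fin.init x) fun i => hx _) (hx (Fin.last (m + 1)))
    rw [show (m + 1 + 1) * d = (m + 1) * d + d by ring]
    exact this

lemma detCl_mem {d m : ℕ} {x : Fin (m + 1) → W.H X} (hx : ∀ i, x i ∈ PH W X d) :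
    detCl W X m x ∈ PH W (pw X m) ((m + 1) * d) := by
  apply Submodule.sum_mem
  intro σ _
  rw [Units.smul_def, ← Int.cast_smul_eq_zsmul W.K]
  exact Submodule.smul_mem _ _ (ten_mem fun i => hx _)

end Pool.Agent.Q67.Det
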