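import Pool.Agent.Q67.Det.Inj

/-!
# Projectors and determinant classes
-/

open CategoryTheory AlgebraicGeometry

universe u v

namespace Pool.Agent.Q67.Det

open Pool.Agent.H914 Pool.Agent.H914.VarClass Pool.Agent.H914.VarClass.Obj
  Pool.Agent.H914.WeilCohomology Pool.Agent.Y133.Half Pool.Agent.H281R3.HT
  Pool.Agent.W536.RR

variable {k : Type u} [Field k] {𝒱 : VarClass k} {ops : CycleOps 𝒱}
  {W : WeilCohomology.{u, v} ops} {X Y Z P Q : 𝒱.Obj}

lemma corr_ext {c c' : W.H (X.prod Y)} (h : W.corr c = W.corr c') : c = c' := by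
  have h4 : W.corr (c + (-1 : W.K) • c') = 0 := by
    rw [corr_add, corr_smul _ (-1 : W.K), h]
    module
  have h5 := corr_inj h4
  rwa [neg_one_smul, ← sub_eq_add_neg, sub_eq_zero] at h5

/-- Linear maps on the cohomology of a power are determined by the external products. -/
lemma pw_ext {M : Type*} [AddCommGroup M] [Module W.K M] {m : ℕ} {F G : W.H (pw X m) →ₗ[W.K] M}
    (h : ∀ (d : Fin (m + 1) → ℕ) (x : Fin (m + 1) → W.H X), (∀ i, x i ∈ W.gr X (d i)) →
      F (ten W X m x) = G (ten W X m x)) : F = G := by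
  apply gr_ext (W.isInternal (pw X m))
  intro N c hc
  have h1 := gr_pw m hc
  clear hc
  induction h1 using Submodule.span_induction with
  | mem z hz => obtain ⟨d, x, hx, _, rfl⟩ := hz; exact h d x hx
  | zero => rw [map_zero, map_zero]
  | add a b _ _ ha hb => rw [map_add, map_add, ha, hb]
  | smul r a _ ha => rw [map_smul, map_smul, ha]

/-- ten of classes of given parities -/
lemma ten_mem' : ∀ {m : ℕ} {d : Fin (m + 1) → ℕ} {x : Fin (m + 1) → W.H X},
    (∀ i, x i ∈ PH W X (d i)) → ten W X m x ∈ PH W (pw X m) (∑ i, d i) := by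
  intro m
  induction m with
  | zero => intro d x hx; rw [Fin.sum_univ_one]; exact hx 0
  | succ m ih =>
    intro d x hx
    rw [Fin.sum_univ_castSucc]
    exact xp_mem (W := W) (ih (d := Fin.init d) (x := Fin.init x) fun i => hx _)
      (hx (Fin.last (m + 1)))

/-- The trace formula for classes of given parities. -/
lemma tr_ten' : ∀ {m : ℕ} {d d' : Fin (m + 1) → ℕ} {x y : Fin (m + 1) → W.H X},
    (∀ i, x i ∈ PH W X (d i)) → (∀ i, y i ∈ PH W X (d' i)) →
    W.tr (pw X m) (ten W X m x * ten W X m y) =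
      (-1 : W.K) ^ (sgT m d d') * ∏ i, W.tr X (x i * y i) := by
  intro m
  induction m with
  | zero =>
    intro d d' x y _ _
    rw [sgT, pow_zero, one_mul, Fin.prod_univ_one]
    rfl
  | succ m ih =>
    intro d d' x y hx hy
    have h1 := tr_xp_mul (W := W) (ten W X m (Fin.init x)) (ten W X m (Fin.init y))
      (x (Fin.last (m + 1))) (y (Fin.last (m + 1))) (hx _)
      (ten_mem' (W := W) (d := Fin.init d') (x := Fin.init y) fun i => hy _)
    have h2 := ih (d := Fin.init d) (d' := Fin.init d') (x := Fin.init x) (y := Fin.init y)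
      (fun i => hx _) (fun i => hy _)
    rw [ten_succ, ten_succ]
    refine h1.trans ?_
    rw [h2, Fin.prod_univ_castSucc (fun i => W.tr X (x i * y i)), sgT, pow_add]
    simp only [Fin.init]
    ring

/-- the matrix of the pairing -/
noncomputable def pairL (W : WeilCohomology.{u, v} ops) {X : 𝒱.Obj} {m : ℕ}
    (f x : Fin (m + 1) → W.H X) : Matrix (Fin (m + 1)) (Fin (m + 1)) W.K :=
  Matrix.of fun a l => W.tr X (f a * x l)

/-- The trace of the product of a determinant class and an external product. -/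
lemma tr_det_ten {m p : ℕ} {f x : Fin (m + 1) → W.H X} (hf : ∀ i, f i ∈ PH W X p)
    {d : Fin (m + 1) → ℕ} (hx : ∀ i, x i ∈ PH W X (d i)) :
    W.tr (pw X m) (detCl W X m f * ten W X m x) =
      (-1 : W.K) ^ (sgT m (fun _ => p) d) * (pairL W f x).det := by
  rw [detCl_eq, Finset.sum_mul, map_sum, Matrix.det_apply', Finset.mul_sum]
  refine Finset.sum_congr rfl fun σ _ => ?_
  rw [smul_mul_assoc, map_smul, tr_ten' (d := fun _ => p) (d' := d) (x := f ∘ σ)
    (fun i => hf _) hx, smul_eq_mul]
  simp only [pairL, Matrix.of_apply, Function.comp, sg]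
  ring

/-- Determinant classes of linear combinations. -/
lemma detCl_comb {m : ℕ} (v : Fin (m + 1) → W.H X) (hv : LinearIndependent W.K v)
    (M : Matrix (Fin (m + 1)) (Fin (m + 1)) W.K) :
    detCl W X m (fun l => ∑ a, M a l • v a) = M.det • detCl W X m v := by
  have h := detCl_smul (W := W) (Module.Basis.span hv) (fun l =>
    ∑ a, M a l • (Module.Basis.span hv a))
  have e1 : ∀ a, ((Module.Basis.span hv a : Submodule.span W.K (Set.range v)) : W.H X) = v a :=
    fun a => by rw [Module.Basis.span_apply]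
  have e2 : (Module.Basis.span hv).det (fun l => ∑ a, M a l • (Module.Basis.span hv a)) =
      M.det := by
    rw [Module.Basis.det_apply]
    congr 1
    ext a l
    rw [Module.Basis.toMatrix_apply, map_sum, Finset.sum_apply']
    simp only [map_smul, Finsupp.smul_apply, Module.Basis.repr_self, smul_eq_mul]
    rw [Finset.sum_eq_single a]
    · simp
    · intro b _ hb
      simp [hb]
    · intro h; exact absurd (Finset.mem_univ _) h
  rw [e2] at h
  simp only [e1] at h
  rw [← h]
  congr 1
  funext l
  rw [Submodule.coe_sum]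
  refine Finset.sum_congr rfl fun a _ => ?_
  rw [Submodule.coe_smul, e1]

/-- The operator `x ↦ ∑ tr (f l * x) • v l`. -/
noncomputable def dualOp (W : WeilCohomology.{u, v} ops) {X : 𝒱.Obj} {m : ℕ}
    (f v : Fin (m + 1) → W.H X) : Module.End W.K (W.H X) :=
  ∑ l, LinearMap.toSpanSingleton W.K (W.H X) (v l) ∘ₗ (W.tr X ∘ₗ LinearMap.mulLeft W.K (f l))

lemma dualOp_apply {m : ℕ} (f v : Fin (m + 1) → W.H X) (x : W.H X) :
    dualOp W f v x = ∑ l, W.tr X (f l * x) • v l := by
  rw [dualOp, LinearMap.sum_apply]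
  rfl

section

variable {m p : ℕ} {f v : Fin (m + 1) → W.H X} (hf : ∀ i, f i ∈ PH W X p)
  (hv : ∀ i, v i ∈ PH W X p) (hdual : ∀ i j, W.tr X (f i * v j) = if i = j then 1 else 0)

include hdual in
lemma linInd_of_dual : LinearIndependent W.K v := by
  classical
  rw [Fintype.linearIndependent_iff]
  intro g hg i
  have h1 := congrArg (fun w => W.tr X (f i * w)) hg
  simp only [Finset.mul_sum, mul_smul_comm, map_sum, map_smul, hdual, smul_eq_mul, mul_ite,
    mul_one, mul_zero, map_zero] at h1
  rw [Finset.sum_ite_eq] at h1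
  simpa using h1

include hf hv hdual in
/-- the operator in terms of determinant classes -/
lemma alt_dualOp : altOp W X m p ∘ₗ powOp W X (dualOp W f v) m =
    ((-1 : W.K) ^ (sgT m (fun _ => p) (fun _ => p)) *
      (-1 : W.K) ^ ((m + 1) * p * ((m + 1) * p))) •
      W.corr (xp W (detCl W X m f) (detCl W X m v)) := by
  apply pw_ext
  intro d x hx
  have hxP : ∀ l, x l ∈ PH W X (d l) := fun l => PH.of (hx l)
  rw [LinearMap.comp_apply, powOp_ten, LinearMap.smul_apply,
    corr_xp _ (detCl_mem hv) (ten_mem' hxP), smul_smul]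
  by_cases hall : ∀ l, d l % 2 = p % 2
  · have hxp : ∀ l, x l ∈ PH W X p := fun l => PH.congr (hall l) (hxP l)
    have hP : ∀ l, dualOp W f v (x l) ∈ PH W X p := fun l => by
      rw [dualOp_apply]
      exact Submodule.sum_mem _ fun a _ => Submodule.smul_mem _ _ (hv a)
    rw [altOp_ten hP, tr_det_ten hf hxp]
    have h1 : (fun l => dualOp W f v (x l)) = fun l => ∑ a, (pairL W f x) a l • v a := by
      funext l
      rw [dualOp_apply]
      rfl
    rw [h1, detCl_comb v (linInd_of_dual hdual)]
    congr 1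
    have h2 : (-1 : W.K) ^ ((m + 1) * p * ∑ l, d l) = (-1) ^ ((m + 1) * p * ((m + 1) * p)) := by
      apply neg_pow_congr
      have h3 : (∑ l, d l) % 2 = ((m + 1) * p) % 2 := by
        have h4 : (∑ l, d l) % 2 = (∑ l : Fin (m + 1), p) % 2 := by
          rw [Finset.sum_nat_mod, Finset.sum_nat_mod (f := fun _ => p)]
          congr 1
          exact Finset.sum_congr rfl fun l _ => hall l
        rw [h4]
        simp
      rw [Nat.mul_mod, h3, ← Nat.mul_mod]
    rw [h2]
    have h5 : ∀ s : ℕ, (-1 : W.K) ^ s * (-1 : W.K) ^ s = 1 := fun s => by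
      rw [← pow_add, ← two_mul, pow_mul]; simp
    have h6 := h5 (sgT m (fun _ => p) (fun _ => p))
    have h7 := h5 ((m + 1) * p * ((m + 1) * p))
    generalize (-1 : W.K) ^ (sgT m (fun _ => p) (fun _ => p)) = a at h6 ⊢
    generalize (-1 : W.K) ^ ((m + 1) * p * ((m + 1) * p)) = b at h7 ⊢
    linear_combination (-((pairL W f x).det * (b * b))) * h6 - (pairL W f x).det * h7
  · push Not at hall
    obtain ⟨l, hl⟩ := hall
    have h0 : ∀ a, W.tr X (f a * x l) = 0 := fun a =>
      PH.tr_odd (PH.mul (hf a) (hxP l)) (by omega)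
    have h1 : dualOp W f v (x l) = 0 := by
      rw [dualOp_apply]
      exact Finset.sum_eq_zero fun a _ => by rw [h0, zero_smul]
    have h2 : (pairL W f x).det = 0 := Matrix.det_eq_zero_of_column_eq_zero l fun a => h0 a
    rw [ten_zero_of (x := fun l => dualOp W f v (x l)) (i := l) h1, map_zero,
      tr_det_ten hf hxP, h2, mul_zero, mul_zero, mul_zero, zero_smul]

include hf hv hdual in
/-- **Projectors and determinant classes.** -/
theorem dualOp_mem_iff (T : Sys W) : dualOp W f v ∈ T.Op X X ↔
    xp W (detCl W X m f) (detCl W X m v) ∈ T.C ((pw X m).prod (pw X m)) := by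
  classical
  have hpow : ∀ s : ℕ, (-1 : W.K) ^ s * (-1 : W.K) ^ s = 1 := fun s => by
    rw [← pow_add, ← two_mul, pow_mul]; simp
  constructor
  · intro h
    have hΨ : altOp W X m p ∘ₗ powOp W X (dualOp W f v) m ∈ T.Op (pw X m) (pw X m) :=
      Sys.Op.comp (altOp_mem T m p) (powOp_mem T h m)
    rw [alt_dualOp hf hv hdual] at hΨ
    obtain ⟨G, hG, hGc⟩ := Sys.mem_Op.1 hΨ
    set s : W.K := ((-1 : W.K) ^ (sgT m (fun _ => p) (fun _ => p)) *
      (-1 : W.K) ^ ((m + 1) * p * ((m + 1) * p))) with hs
    have hss : s * s = 1 := by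
      rw [hs, mul_mul_mul_comm, hpow, hpow, one_mul]
    have h1 : G = s • xp W (detCl W X m f) (detCl W X m v) := by
      apply corr_ext
      rw [hGc, corr_smul]
    have h2 : xp W (detCl W X m f) (detCl W X m v) = s • G := by
      rw [h1, smul_smul, hss, one_smul]
    rw [h2]
    exact Submodule.smul_mem _ _ hG
  · intro h
    have h2 := conAll_mem T (T.one X) m h
    have hdual' : ∀ i j, W.tr X (f i * v j * 1) = if i = j then 1 else 0 := by
      intro i j; rw [mul_one]; exact hdual i j
    rw [conAll_dual (T.even (T.one X)) hf hv hdual'] at h2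
    have h3 : ∑ σ : Equiv.Perm (Fin (m + 1)), xp W (f (σ 0)) (v (σ 0)) ∈ T.C (X.prod X) := by
      have := Submodule.smul_mem (T.C (X.prod X)) ((-1 : W.K) ^ (sgC p m)) h2
      rwa [smul_smul, hpow, one_smul] at this
    have h4 : ∑ σ : Equiv.Perm (Fin (m + 1)), xp W (f (σ 0)) (v (σ 0)) =
        ((m.factorial : ℕ) : W.K) • ∑ l, xp W (f l) (v l) := by
      have h5 : ∀ σ : Equiv.Perm (Fin (m + 1)), xp W (f (σ 0)) (v (σ 0)) =
          ∑ l, if σ 0 = l then xp W (f l) (v l) else 0 := by
        intro σ
        rw [Finset.sum_ite_eq]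
        simp
      rw [Finset.sum_congr rfl fun σ _ => h5 σ, Finset.sum_comm, Finset.smul_sum]
      refine Finset.sum_congr rfl fun l _ => ?_
      rw [← Finset.sum_filter, Finset.sum_const, ← Nat.cast_smul_eq_nsmul W.K]
      congr 2
      -- the number of permutations with `σ 0 = l`
      have e : {σ : Equiv.Perm (Fin (m + 1)) // σ 0 = l} ≃ Equiv.Perm (Fin m) := by
        have hd : ∀ σ : Equiv.Perm (Fin (m + 1)), (Equiv.Perm.decomposeFin σ).1 = σ 0 := by
          intro σ
          conv_rhs => rw [← Equiv.Perm.decomposeFin.symm_apply_apply σ]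
          rcases Equiv.Perm.decomposeFin σ with ⟨p, e⟩
          exact (Equiv.Perm.decomposeFin_symm_apply_zero p e).symm
        refine ((Equiv.Perm.decomposeFin (n := m)).subtypeEquiv (q := fun x => x.1 = l) ?_).trans ?_
        · intro σ
          rw [hd]
        · exact
            { toFun := fun x => x.1.2
              invFun := fun y => ⟨(l, y), rfl⟩
              left_inv := by
                rintro ⟨⟨a, b⟩, h⟩
                simp only at h
                subst h
                rfl
              right_inv := fun _ => rfl }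
      have h6 : Fintype.card {σ : Equiv.Perm (Fin (m + 1)) // σ 0 = l} = m.factorial := by
        rw [Fintype.card_congr e, Fintype.card_perm, Fintype.card_fin]
      rw [← h6, Fintype.card_subtype]
    rw [h4] at h3
    have hm0 : ((m.factorial : ℕ) : W.K) ≠ 0 := Nat.cast_ne_zero.2 (Nat.factorial_ne_zero _)
    have h5 : ∑ l, xp W (f l) (v l) ∈ T.C (X.prod X) := by
      have := Submodule.smul_mem (T.C (X.prod X)) ((m.factorial : ℕ) : W.K)⁻¹ h3
      rwa [smul_smul, inv_mul_cancel₀ hm0, one_smul] at this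
    have h6 : dualOp W f v = (-1 : W.K) ^ (p * p) • W.corr (∑ l, xp W (f l) (v l)) := by
      apply gr_ext (W.isInternal X)
      intro c z hz
      have e1 : W.corr (∑ l, xp W (f l) (v l)) z = corrL W X X (∑ l, xp W (f l) (v l)) z := rfl
      rw [LinearMap.smul_apply, e1, map_sum, LinearMap.sum_apply, dualOp_apply, Finset.smul_sum]
      refine Finset.sum_congr rfl fun l _ => ?_
      change _ = (-1 : W.K) ^ (p * p) • W.corr (xp W (f l) (v l)) z
      rw [corr_xp _ (hv l) (PH.of hz), smul_smul]
      by_cases hc : c % 2 = p % 2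
      · have h7 : (-1 : W.K) ^ (p * c) = (-1) ^ (p * p) := by
          apply neg_pow_congr
          rw [Nat.mul_mod, hc, ← Nat.mul_mod]
        rw [h7, ← mul_assoc, hpow, one_mul]
      · rw [PH.tr_odd (PH.mul (hf l) (PH.of hz)) (by omega), mul_zero, mul_zero]
    rw [h6]
    exact Submodule.smul_mem _ _ (Sys.Op.corr h5)

end

end Pool.Agent.Q67.Det
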