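import Pool.Agent.Q67.Det.Defs

/-!
# The sign conjecture and one decomposable class: definitions
-/

open CategoryTheory AlgebraicGeometry

universe u v

namespace Pool.Agent.Q67.Det

open Pool.Agent.H914 Pool.Agent.H914.VarClass Pool.Agent.H914.VarClass.Obj
  Pool.Agent.H914.WeilCohomology
open Pool.Agent.Y133.Half (pw)

variable {k : Type u} [Field k] {𝒱 : VarClass k} {ops : CycleOps 𝒱}

/-- The family `e` is a basis of the sum of the spaces `H^i(X)` where `i` has the parity of `p`. -/
def IsParityBasis (W : WeilCohomology.{u, v} ops) (X : 𝒱.Obj) (p : ℕ) {m : ℕ}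
    (e : Fin (m + 1) → W.H X) : Prop :=
  LinearIndependent W.K e ∧
    Submodule.span W.K (Set.range e) = ⨆ (i : ℕ) (_ : i % 2 = p % 2), W.gr X i

/-- Let `ω` be the determinant class, on `X^b`, of (a basis of) the even cohomology (if `p` is even)
or of the odd cohomology (if `p` is odd) of `X`, where `b` is the dimension of this space. The class
`ω × ω` on `X^b × X^b` is a `K`-linear combination of classes of algebraic cycles of codimension
`b dim X`. (The condition is empty if `b = 0`.) -/
def SquareAlgebraic (W : WeilCohomology.{u, v} ops) (X : 𝒱.Obj) (p : ℕ) : Prop :=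
  ∀ (m : ℕ) (e : Fin (m + 1) → W.H X), IsParityBasis W X p e →
    cross W (detCl W X m e) (detCl W X m e) ∈
      spanCycles W ((pw X m).prod (pw X m)) (((m + 1) * X.dim : ℕ) : ℤ)

end Pool.Agent.Q67.Det
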