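import Pool.Agent.Q67.Det.Kun
import Pool.Agent.Q67.Det.SgnDefs
import Pool.Agent.TH133.PW.Ev

/-!
# The sign conjecture and one decomposable class
-/

open CategoryTheory AlgebraicGeometry

universe u v

namespace Pool.Agent.Q67.Det

open Pool.Agent.H914 Pool.Agent.H914.VarClass Pool.Agent.H914.VarClass.Obj
  Pool.Agent.H914.WeilCohomology Pool.Agent.Y133.Half Pool.Agent.H447
open scoped Matrix

variable {k : Type u} [Field k] {𝒱 : VarClass k} {ops : CycleOps 𝒱}
  {W : WeilCohomology.{u, v} ops} {X : 𝒱.Obj}

/-- The projector onto the cohomology of the parity of `p`. -/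
noncomputable def parP (W : WeilCohomology.{u, v} ops) (X : 𝒱.Obj) (p : ℕ) :
    Module.End W.K (W.H X) :=
  (2 : W.K)⁻¹ • (1 + (-1 : W.K) ^ p • par (W.isInternal X))

lemma parP_apply {p q : ℕ} {x : W.H X} (hx : x ∈ PH W X q) :
    parP W X p x = if q % 2 = p % 2 then x else 0 := by
  have h2 : (2 : W.K) ≠ 0 := two_ne_zero
  rw [parP, LinearMap.smul_apply, LinearMap.add_apply, LinearMap.smul_apply, PH.par hx,
    Module.End.one_apply, smul_smul, ← pow_add]
  split_ifs with h
  · rw [Even.neg_one_pow (Nat.even_iff.2 (by omega)), one_smul, ← two_smul W.K x, smul_smul,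
      inv_mul_cancel₀ h2, one_smul]
  · rw [Odd.neg_one_pow (Nat.odd_iff.2 (by omega)), neg_one_smul, add_neg_cancel, smul_zero]

lemma parP_mem (p : ℕ) (x : W.H X) : parP W X p x ∈ PH W X p := by
  refine gr_induction (W.isInternal X) (p := fun x => parP W X p x ∈ PH W X p) ?_ ?_ x
  · intro i a ha
    rw [parP_apply (PH.of ha)]
    split_ifs with h
    · exact PH.of' h ha
    · exact Submodule.zero_mem _
  · intro a b ha hb
    rw [map_add]
    exact Submodule.add_mem _ ha hb

lemma parP_add (p : ℕ) (x : W.H X) : parP W X p x + parP W X (p + 1) x = x := by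
  refine gr_induction (W.isInternal X)
    (p := fun x => parP W X p x + parP W X (p + 1) x = x) ?_ ?_ x
  · intro i a ha
    rw [parP_apply (PH.of ha), parP_apply (PH.of ha)]
    by_cases h : i % 2 = p % 2
    · rw [if_pos h, if_neg (by omega), add_zero]
    · rw [if_neg h, if_pos (by omega), zero_add]
  · intro a b ha hb
    rw [map_add, map_add, add_add_add_comm, ha, hb]

/-- The dual family. -/
lemma exists_dualP {p m : ℕ} {v : Fin (m + 1) → W.H X} (hv : IsParityBasis W X p v) :
    ∃ f : Fin (m + 1) → W.H X, (∀ a, f a ∈ PH W X p) ∧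
      ∀ a b, W.tr X (f a * v b) = if a = b then 1 else 0 := by
  classical
  have hvm : ∀ b, v b ∈ PH W X p := fun b => by
    have : v b ∈ Submodule.span W.K (Set.range v) := Submodule.subset_span ⟨b, rfl⟩
    rw [hv.2] at this
    exact this
  have h1 : ∀ a, ∃ x : W.H X, ∀ b, W.tr X (x * v b) = if a = b then 1 else 0 := by
    intro a
    obtain ⟨g, hg⟩ := LinearMap.exists_extend ((Module.Basis.span hv.1).coord a)
    obtain ⟨x, hx⟩ := pd_surjective g
    refine ⟨x, fun b => ?_⟩
    rw [← pd_apply, hx]
    have h2 := congrArg (fun F : _ →ₗ[W.K] W.K => F (Module.Basis.span hv.1 b)) hg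
    simp only [LinearMap.comp_apply, Submodule.subtype_apply, Module.Basis.coord_apply,
      Module.Basis.repr_self] at h2
    rw [Module.Basis.span_apply] at h2
    rw [h2, Finsupp.single_apply]
    by_cases hab : a = b
    · rw [if_pos hab, if_pos hab.symm]
    · rw [if_neg hab, if_neg (Ne.symm hab)]
  choose x hx using h1
  refine ⟨fun a => parP W X p (x a), fun a => parP_mem p _, fun a b => ?_⟩
  rw [← hx a b]
  conv_rhs => rw [← parP_add p (x a), add_mul, map_add,
    PH.tr_odd (PH.mul (parP_mem (p + 1) (x a)) (hvm b)) (by omega), add_zero]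

lemma dualOp_eq_parP {p m : ℕ} {f v : Fin (m + 1) → W.H X} (hf : ∀ a, f a ∈ PH W X p)
    (hv : IsParityBasis W X p v) (hdual : ∀ a b, W.tr X (f a * v b) = if a = b then 1 else 0) :
    dualOp W f v = parP W X p := by
  apply gr_ext (W.isInternal X)
  intro l x hx
  rw [dualOp_apply, parP_apply (PH.of hx)]
  by_cases hl : l % 2 = p % 2
  · rw [if_pos hl]
    have hx' : x ∈ Submodule.span W.K (Set.range v) := by
      rw [hv.2]
      exact PH.of' hl hx
    clear hx
    induction hx' using Submodule.span_induction with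
    | mem x hx =>
      obtain ⟨b, rfl⟩ := hx
      rw [Finset.sum_eq_single b]
      · rw [hdual, if_pos rfl, one_smul]
      · intro a _ hab
        rw [hdual, if_neg hab, zero_smul]
      · intro h; exact absurd (Finset.mem_univ _) h
    | zero => simp
    | add x y _ _ hx hy =>
      simp only [mul_add, map_add, add_smul, Finset.sum_add_distrib, hx, hy]
    | smul r x _ hx =>
      simp only [mul_smul_comm, map_smul, smul_assoc, ← Finset.smul_sum, hx]
  · rw [if_neg hl]
    refine Finset.sum_eq_zero fun a _ => ?_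
    rw [PH.tr_odd (PH.mul (hf a) (PH.of hx)) (by omega), zero_smul]

/-- The determinant class of the dual family. -/
lemma exists_dual_det {p m : ℕ} {v : Fin (m + 1) → W.H X} (hv : IsParityBasis W X p v) :
    ∃ f : Fin (m + 1) → W.H X, (∀ a, f a ∈ PH W X p) ∧
      (∀ a b, W.tr X (f a * v b) = if a = b then 1 else 0) ∧
      ∃ r : W.K, r ≠ 0 ∧ detCl W X m f = r • detCl W X m v := by
  classical
  obtain ⟨f, hf, hdual⟩ := exists_dualP hv
  refine ⟨f, hf, hdual, ?_⟩
  have h1 : ∀ l, ∃ c : Fin (m + 1) → W.K, ∑ a, c a • v a = f l := by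
    intro l
    have h2 : f l ∈ Submodule.span W.K (Set.range v) := by
      rw [hv.2]
      exact hf l
    exact (Submodule.mem_span_range_iff_exists_fun W.K).1 h2
  choose M hM using h1
  refine ⟨(Matrix.of fun a l => M l a).det, ?_, ?_⟩
  · intro h0
    have h3 : (Matrix.of fun a l => M l a)ᵀ * (Matrix.of fun a b => W.tr X (v a * v b)) =
        (1 : Matrix (Fin (m + 1)) (Fin (m + 1)) W.K) := by
      ext l b
      rw [Matrix.mul_apply, Matrix.one_apply, ← hdual l b, ← hM l, Finset.sum_mul, map_sum]
      refine Finset.sum_congr rfl fun a _ => ?_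
      rw [smul_mul_assoc, map_smul, smul_eq_mul]
      rfl
    have h4 := congrArg Matrix.det h3
    rw [Matrix.det_mul, Matrix.det_transpose, h0, zero_mul, Matrix.det_one] at h4
    exact zero_ne_one h4
  · rw [← detCl_comb v hv.1]
    congr 1
    funext l
    exact (hM l).symm

/-- **Parity projectors and squares of determinant classes**, for a system of classes. -/
theorem parP_mem_iff (T : Sys W) {p m : ℕ} {v : Fin (m + 1) → W.H X}
    (hv : IsParityBasis W X p v) : parP W X p ∈ T.Op X X ↔
      xp W (detCl W X m v) (detCl W X m v) ∈ T.C ((pw X m).prod (pw X m)) := by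
  obtain ⟨f, hf, hdual, r, hr, hfr⟩ := exists_dual_det hv
  have hvm : ∀ b, v b ∈ PH W X p := fun b => by
    have : v b ∈ Submodule.span W.K (Set.range v) := Submodule.subset_span ⟨b, rfl⟩
    rw [hv.2] at this
    exact this
  rw [← dualOp_eq_parP hf hv hdual, dualOp_mem_iff hf hvm hdual T, hfr, xp_smul_left]
  constructor
  · intro h
    have := Submodule.smul_mem _ r⁻¹ h
    rwa [smul_smul, inv_mul_cancel₀ hr, one_smul] at this
  · exact fun h => Submodule.smul_mem _ _ h

lemma dim_pw' (X : 𝒱.Obj) : ∀ m, (pw X m).dim = (m + 1) * X.dim := by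
  intro m
  induction m with
  | zero => simp [pw]
  | succ m ih => rw [pw, dim_prod, ih]; ring

lemma isHom_alt (p m : ℕ) :
    IsHom (W.gr (pw X m)) 0 (altOp W X m p ∘ₗ powOp W X (parP W X p) m) := by
  apply isHom_zero_of
  intro N c hc
  have h1 := gr_pw m hc
  clear hc
  induction h1 using Submodule.span_induction with
  | mem z hz =>
    obtain ⟨d, x, hx, hd, rfl⟩ := hz
    rw [LinearMap.comp_apply, powOp_ten, altOp_ten fun i => parP_mem p _, detCl_eq]
    refine Submodule.sum_mem _ fun σ _ => Submodule.smul_mem _ _ ?_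
    have h2 : ∑ i, d (σ i) = N := by
      rw [← hd]
      exact Equiv.sum_comp σ d
    rw [← h2]
    refine ten_gr fun i => ?_
    change parP W X p (x (σ i)) ∈ _
    rw [parP_apply (PH.of (hx _))]
    split_ifs
    · exact hx _
    · exact Submodule.zero_mem _
  | zero => rw [map_zero]; exact Submodule.zero_mem _
  | add a b _ _ ha hb => rw [map_add]; exact Submodule.add_mem _ ha hb
  | smul r a _ ha => rw [map_smul]; exact Submodule.smul_mem _ _ ha

/-- The square of the determinant class is of degree twice the dimension. -/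
lemma square_gr {p m : ℕ} {v : Fin (m + 1) → W.H X} (hv : IsParityBasis W X p v) :
    xp W (detCl W X m v) (detCl W X m v) ∈
      W.gr ((pw X m).prod (pw X m)) (2 * ((m + 1) * X.dim)) := by
  obtain ⟨f, hf, hdual, r, hr, hfr⟩ := exists_dual_det hv
  have hvm : ∀ b, v b ∈ PH W X p := fun b => by
    have : v b ∈ Submodule.span W.K (Set.range v) := Submodule.subset_span ⟨b, rfl⟩
    rw [hv.2] at this
    exact this
  have h1 := alt_dualOp hf hvm hdual
  rw [dualOp_eq_parP hf hv hdual, hfr, xp_smul_left] at h1
  set s : W.K := (-1 : W.K) ^ (sgT m (fun _ => p) (fun _ => p)) *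
      (-1 : W.K) ^ ((m + 1) * p * ((m + 1) * p)) with hs
  have hs0 : s ≠ 0 := mul_ne_zero (pow_ne_zero _ (by norm_num)) (pow_ne_zero _ (by norm_num))
  have h2 : W.corr (xp W (detCl W X m v) (detCl W X m v)) =
      (s * r)⁻¹ • (altOp W X m p ∘ₗ powOp W X (parP W X p) m) := by
    rw [h1, corr_smul, smul_smul, smul_smul]
    rw [mul_assoc, inv_mul_cancel₀ (mul_ne_zero hs0 hr), one_smul]
  rw [← dim_pw' X m]
  apply mem_gr_of_isHom
  rw [h2, sub_self, mul_zero]
  intro i a ha
  exact Submodule.smul_mem _ _ (isHom_alt p m i a ha)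

/-- The parity projector is given by algebraic classes if and only if the square of the determinant
class is algebraic. -/
theorem parP_iff (p : ℕ) : parP W X p ∈ (algSys W).Op X X ↔ SquareAlgebraic W X p := by
  constructor
  · intro h m e he
    exact spanCycles_of_algSpan ((parP_mem_iff (algSys W) he).1 h) (square_gr he)
  · intro h
    rcases Nat.eq_zero_or_pos (Module.finrank W.K (PH W X p)) with h0 | hpos
    · have h1 : PH W X p = ⊥ := Submodule.finrank_eq_zero.1 h0
      have h2 : parP W X p = 0 := LinearMap.ext fun x => by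
        have := parP_mem (W := W) (X := X) p x
        rw [h1, Submodule.mem_bot] at this
        rw [this, LinearMap.zero_apply]
      rw [h2]
      exact Submodule.zero_mem _
    · obtain ⟨m, hm⟩ : ∃ m, Module.finrank W.K (PH W X p) = m + 1 :=
        ⟨_, (Nat.succ_pred_eq_of_pos hpos).symm⟩
      let b : Module.Basis (Fin (m + 1)) W.K (PH W X p) := Module.finBasisOfFinrankEq _ _ hm
      have he : IsParityBasis W X p fun a => (b a : W.H X) := by
        refine ⟨b.linearIndependent.map' (PH W X p).subtype (PH W X p).ker_subtype, ?_⟩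
        have h1 : (Set.range fun a => (b a : W.H X)) = (PH W X p).subtype '' Set.range b := by
          rw [← Set.range_comp]; rfl
        rw [h1, Submodule.span_image, b.span_eq, Submodule.map_top, Submodule.range_subtype]
        rfl
      exact (parP_mem_iff (algSys W) he).2 (span_le_alg (h m _ he))

lemma parP_one_iff : parP W X 1 ∈ (algSys W).Op X X ↔ parP W X 0 ∈ (algSys W).Op X X := by
  have h : parP W X 1 = 1 - parP W X 0 := LinearMap.ext fun x => by
    rw [LinearMap.sub_apply, Module.End.one_apply, eq_sub_iff_add_eq, add_comm]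
    exact parP_add 0 x
  constructor
  · intro h1
    have h2 : parP W X 0 = 1 - parP W X 1 := by rw [h]; abel
    rw [h2]
    exact Submodule.sub_mem _ Sys.Op.id h1
  · intro h1
    rw [h]
    exact Submodule.sub_mem _ Sys.Op.id h1

open TH133.PW in
/-- The sign conjecture in terms of the system of algebraic classes. -/
theorem sign_iff : SignStd W X ↔ parP W X 0 ∈ (algSys W).Op X X := by
  constructor
  · rintro ⟨z, hz, hz'⟩
    have h1 : parP W X 0 = W.corr (W.cl (X.prod X) z) := by
      apply gr_ext (W.isInternal X)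
      intro j a ha
      rw [hz' j a ha, parP_apply (PH.of ha)]
      by_cases hj : Even j
      · rw [if_pos hj, if_pos (by rw [Nat.even_iff.1 hj])]
      · rw [if_neg hj, if_neg (by rw [Nat.not_even_iff.1 hj]; omega)]
    rw [h1]
    exact Sys.Op.corr (span_le_alg (Submodule.subset_span ⟨X.dim, rfl, z, hz, rfl⟩))
  · intro h
    refine ((sign_tfae W X).out 0 1).2 ?_
    obtain ⟨γ, hγ, hγ'⟩ := span_of_op h (isHom_zero_of (fun j a ha => by
      rw [parP_apply (PH.of ha)]
      split_ifs
      · exact ha
      · exact Submodule.zero_mem _))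
    refine ⟨parP W X 0, ?_, ?_⟩
    · rw [← hγ']
      clear hγ'
      unfold spanCycles at hγ
      induction hγ using Submodule.span_induction with
      | mem c hc =>
        obtain ⟨q, hq, z, hz, rfl⟩ := hc
        obtain rfl : q = X.dim := by exact_mod_cast hq
        exact Submodule.subset_span ⟨z, hz, rfl⟩
      | zero => rw [corr_zero]; exact Submodule.zero_mem _
      | add a b _ _ ha hb => rw [corr_add]; exact Submodule.add_mem _ ha hb
      | smul r a _ ha => rw [corr_smul]; exact Submodule.smul_mem _ _ ha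
    · intro j a ha
      rw [parP_apply (PH.of ha)]
      by_cases hj : Even j
      · rw [if_pos hj, if_pos (by rw [Nat.even_iff.1 hj])]
      · rw [if_neg hj, if_neg (by rw [Nat.not_even_iff.1 hj]; omega)]

/-- **The sign conjecture is the algebraicity of one decomposable class.** -/
theorem sign_square_tfae (W : WeilCohomology.{u, v} ops) (X : 𝒱.Obj) :
    [SignStd W X, SquareAlgebraic W X 0, SquareAlgebraic W X 1].TFAE := by
  tfae_have 1 ↔ 2 := sign_iff.trans (parP_iff 0)
  tfae_have 1 ↔ 3 := sign_iff.trans (parP_one_iff.symm.trans (parP_iff 1))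
  tfae_finish

end Pool.Agent.Q67.Det
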