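import Pool.Agent.Q67.Det.Defs
import Pool.Agent.Y133.Half.Sys

/-!
# External products of several classes
-/

open CategoryTheory AlgebraicGeometry

universe u v

namespace Pool.Agent.Q67.Det

open Pool.Agent.H914 Pool.Agent.H914.VarClass Pool.Agent.H914.VarClass.Obj
  Pool.Agent.H914.WeilCohomology Pool.Agent.Y133.Half

/-- ordered products -/
def oprod {A : Type*} [Mul A] : ∀ m : ℕ, (Fin (m + 1) → A) → A
  | 0, y => y 0
  | m + 1, y => oprod m (Fin.init y) * y (Fin.last (m + 1))

section Perm

variable {K A : Type*} [Field K] [Ring A] [Algebra K A]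

/-- the sign with which a permutation acts -/
def eps (K : Type*) [Field K] (ε : K) {m : ℕ} (σ : Equiv.Perm (Fin m)) : K :=
  if Equiv.Perm.sign σ = 1 then 1 else ε

lemma eps_one (ε : K) {m : ℕ} : eps K ε (1 : Equiv.Perm (Fin m)) = 1 := by
  simp [eps]

lemma eps_mul {ε : K} (hε : ε * ε = 1) {m : ℕ} (σ τ : Equiv.Perm (Fin m)) :
    eps K ε (σ * τ) = eps K ε σ * eps K ε τ := by
  unfold eps
  rw [Equiv.Perm.sign_mul]
  rcases Int.units_eq_one_or (Equiv.Perm.sign σ) with h | h <;>
    rcases Int.units_eq_one_or (Equiv.Perm.sign τ) with h' | h' <;> simp [h, h', hε]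

lemma eps_swap {ε : K} {m : ℕ} {i j : Fin m} (hij : i ≠ j) :
    eps K ε (Equiv.swap i j) = ε := by
  unfold eps
  rw [Equiv.Perm.sign_swap hij]
  simp

/-- the family commutes up to the sign `ε` -/
def EComm (ε : K) {m : ℕ} (y : Fin m → A) : Prop := ∀ i j, i ≠ j → y i * y j = ε • (y j * y i)

lemma EComm.comp {ε : K} {m : ℕ} {y : Fin m → A} (h : EComm ε y) (σ : Equiv.Perm (Fin m)) :
    EComm ε (y ∘ σ) := fun i j hij => h _ _ (fun h' => hij (σ.injective h'))

lemma EComm.init {ε : K} {m : ℕ} {y : Fin (m + 1) → A} (h : EComm ε y) :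
    EComm ε (Fin.init y) := fun i j hij => h _ _ (fun h' => hij (Fin.castSucc_injective _ h'))

lemma oprod_adj {ε : K} : ∀ {m : ℕ} {y : Fin (m + 1) → A}, EComm ε y → ∀ i : Fin m,
    oprod m (y ∘ Equiv.swap i.castSucc i.succ) = ε • oprod m y := by
  intro m
  induction m with
  | zero => intro y _ i; exact i.elim0
  | succ m ih =>
    intro y hy i
    refine Fin.lastCases ?_ ?_ i
    · cases m with
      | zero =>
        have h1 : y ∘ Equiv.swap (Fin.last 0).castSucc (Fin.last 0).succ = ![y 1, y 0] := by
          funext j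
          fin_cases j
          · simp
          · simp
        rw [h1]
        change y 1 * y 0 = ε • (y 0 * y 1)
        exact hy 1 0 (by decide)
      | succ m =>
        have e1 : (y ∘ Equiv.swap (Fin.last (m + 1)).castSucc (Fin.last (m + 1)).succ)
            (Fin.last (m + 2)) = y (Fin.last (m + 1)).castSucc := by
          simp [Function.comp, ← Fin.succ_last]
        have e2 : Fin.init (y ∘ Equiv.swap (Fin.last (m + 1)).castSucc
            (Fin.last (m + 1)).succ) (Fin.last (m + 1)) = y (Fin.last (m + 2)) := by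
          simp [Fin.init, Function.comp, ← Fin.succ_last]
        have e3 : Fin.init (Fin.init (y ∘ Equiv.swap (Fin.last (m + 1)).castSucc
            (Fin.last (m + 1)).succ)) = Fin.init (Fin.init y) := by
          funext j
          simp only [Fin.init, Function.comp]
          congr 1
          apply Equiv.swap_apply_of_ne_of_ne
          · intro h
            have := congrArg Fin.val h
            simp at this
            omega
          · intro h
            have := congrArg Fin.val h
            simp at this
            omega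
        have e4 : ∀ z : Fin (m + 3) → A, oprod (m + 2) z =
            (oprod m (Fin.init (Fin.init z)) * Fin.init z (Fin.last (m + 1))) *
              z (Fin.last (m + 2)) := fun _ => rfl
        change oprod (m + 2) _ = ε • oprod (m + 2) y
        rw [e4, e4 y, e1, e2, e3, mul_assoc, mul_assoc]
        have h := hy (Fin.last (m + 2)) (Fin.last (m + 1)).castSucc (by
          intro h
          have := congrArg Fin.val h
          simp at this)
        rw [h, mul_smul_comm]
        rfl
    · intro j
      have e1 : (y ∘ Equiv.swap (j.castSucc).castSucc (j.castSucc).succ) (Fin.last (m + 1)) =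
          y (Fin.last (m + 1)) := by
        simp only [Function.comp]
        congr 1
        apply Equiv.swap_apply_of_ne_of_ne
        · intro h
          have := congrArg Fin.val h
          simp at this
          omega
        · intro h
          have := congrArg Fin.val h
          simp at this
          omega
      have e2 : Fin.init (y ∘ Equiv.swap (j.castSucc).castSucc (j.castSucc).succ) =
          Fin.init y ∘ Equiv.swap j.castSucc j.succ := by
        funext l
        simp only [Fin.init, Function.comp]
        congr 1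
        rw [Fin.succ_castSucc]
        by_cases h1 : l = j.castSucc
        · subst h1; simp
        · by_cases h2 : l = j.succ
          · subst h2; simp
          · rw [Equiv.swap_apply_of_ne_of_ne h1 h2, Equiv.swap_apply_of_ne_of_ne]
            · intro h; exact h1 (Fin.castSucc_injective _ h)
            · intro h; exact h2 (Fin.castSucc_injective _ h)
      have e4 : ∀ z : Fin (m + 2) → A, oprod (m + 1) z =
            oprod m (Fin.init z) * z (Fin.last (m + 1)) := fun _ => rfl
      rw [e4, e4 y, e1, e2, ih hy.init j, smul_mul_assoc]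

/-- ordered products of families which commute up to sign -/
lemma oprod_perm {ε : K} (hε : ε * ε = 1) {m : ℕ} (σ : Equiv.Perm (Fin (m + 1))) :
    ∀ {y : Fin (m + 1) → A}, EComm ε y → oprod m (y ∘ σ) = eps K ε σ • oprod m y := by
  have hσ : σ ∈ Submonoid.closure (Set.range fun i : Fin m => Equiv.swap i.castSucc i.succ) := by
    rw [Equiv.Perm.mclosure_swap_castSucc_succ]
    trivial
  induction hσ using Submonoid.closure_induction with
  | mem σ hσ =>
    obtain ⟨i, rfl⟩ := hσ
    intro y hy
    have hne : i.castSucc ≠ i.succ := (Fin.castSucc_lt_succ (i := i)).ne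
    change oprod m (y ∘ Equiv.swap i.castSucc i.succ) = _
    rw [oprod_adj hy]
    congr 1
    exact (eps_swap hne).symm
  | one =>
    intro y _
    rw [eps_one, one_smul]
    rfl
  | mul σ τ _ _ hσ hτ =>
    intro y hy
    have : y ∘ (σ * τ) = (y ∘ σ) ∘ τ := rfl
    rw [this, hτ (hy.comp σ), hσ hy, smul_smul, eps_mul hε, mul_comm (eps K ε τ)]

end Perm

variable {k : Type u} [Field k] {𝒱 : VarClass k} {ops : CycleOps 𝒱}
  {W : WeilCohomology.{u, v} ops} {X Y Z : 𝒱.Obj}

lemma cross_eq (x : W.H Y) (y : W.H Z) : cross W x y = xp W x y := rfl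

lemma ten_succ (m : ℕ) (x : Fin (m + 2) → W.H X) :
    ten W X (m + 1) x = xp W (ten W X m (Fin.init x)) (x (Fin.last (m + 1))) := rfl

lemma ten_zero (x : Fin 1 → W.H X) : ten W X 0 x = x 0 := rfl

/-- The projections of the powers. -/
noncomputable def prj (X : 𝒱.Obj) : ∀ m : ℕ, Fin (m + 1) → (pw X m ⟶ X)
  | 0 => fun _ => 𝟙 X
  | m + 1 => Fin.lastCases (snd (pw X m) X) (fun i => fst (pw X m) X ≫ prj X m i)

/-- The morphism to the power given by a tuple of morphisms. -/
noncomputable def tup : ∀ m : ℕ, (Fin (m + 1) → (Z ⟶ X)) → (Z ⟶ pw X m)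
  | 0, f => f 0
  | m + 1, f => Obj.lift (tup m (Fin.init f)) (f (Fin.last (m + 1)))

lemma map_tup_ten : ∀ (m : ℕ) (f : Fin (m + 1) → (Z ⟶ X)) (x : Fin (m + 1) → W.H X),
    W.map (tup m f) (ten W X m x) = oprod m (fun i => W.map (f i) (x i)) := by
  intro m
  induction m with
  | zero => intro f x; rfl
  | succ m ih =>
    intro f x
    change W.map (Obj.lift (tup m (Fin.init f)) (f (Fin.last (m + 1))))
      (W.map (fst (pw X m) X) (ten W X m (Fin.init x)) *
        W.map (snd (pw X m) X) (x (Fin.last (m + 1)))) = _
    rw [map_mul, ← W.map_comp, ← W.map_comp, Obj.lift_fst, Obj.lift_snd, ih]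
    rfl

lemma map_oprod (g : Z ⟶ Y) : ∀ (m : ℕ) (y : Fin (m + 1) → W.H Y),
    W.map g (oprod m y) = oprod m (fun i => W.map g (y i)) := by
  intro m
  induction m with
  | zero => intro y; rfl
  | succ m ih =>
    intro y
    change W.map g (oprod m (Fin.init y) * y (Fin.last (m + 1))) = _
    rw [map_mul, ih]
    rfl

lemma ten_eq_oprod : ∀ (m : ℕ) (x : Fin (m + 1) → W.H X),
    ten W X m x = oprod m (fun i => W.map (prj X m i) (x i)) := by
  intro m
  induction m with
  | zero =>
    intro x
    change x 0 = W.map (𝟙 X) (x 0)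
    rw [W.map_id]
  | succ m ih =>
    intro x
    rw [ten_succ, xp, ih, map_oprod]
    change _ = oprod m (Fin.init fun i => W.map (prj X (m + 1) i) (x i)) *
      W.map (prj X (m + 1) (Fin.last (m + 1))) (x (Fin.last (m + 1)))
    congr 1
    · congr 1
      funext i
      rw [← W.map_comp]
      simp [Fin.init, prj]
      rfl
    · simp [prj]
      rfl

/-- The action of a permutation on the cohomology of the power. -/
noncomputable def pm (W : WeilCohomology.{u, v} ops) (X : 𝒱.Obj) (m : ℕ)
    (σ : Equiv.Perm (Fin (m + 1))) : Module.End W.K (W.H (pw X m)) :=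
  (W.map (tup m (fun i => prj X m (σ i)))).toLinearMap

/-- the sign of the commutation of two classes of degree `d` -/
def sd (K : Type*) [Field K] (d : ℕ) : K := (-1 : K) ^ (d * d)

lemma sd_sq (K : Type*) [Field K] (d : ℕ) : sd K d * sd K d = 1 := by
  unfold sd
  rw [← pow_add, ← two_mul, pow_mul]
  simp

lemma eComm_map {m l d : ℕ} (f : Fin (m + 1) → (Z ⟶ X)) {x : Fin (m + 1) → W.H X}
    (hx : ∀ i, x i ∈ PH W X d) : EComm (sd W.K d) (fun i => W.map (f i) (x i)) := by
  intro i j _
  exact PH.comm (PH.map _ (hx i)) (PH.map _ (hx j))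

lemma pm_ten {m d : ℕ} (σ : Equiv.Perm (Fin (m + 1))) {x : Fin (m + 1) → W.H X}
    (hx : ∀ i, x i ∈ PH W X d) :
    pm W X m σ (ten W X m x) = eps W.K (sd W.K d) σ • ten W X m (x ∘ σ.symm) := by
  rw [ten_eq_oprod m (x ∘ σ.symm)]
  change W.map (tup m (fun i => prj X m (σ i))) (ten W X m x) = _
  rw [map_tup_ten]
  have h1 : (fun i => W.map (prj X m (σ i)) (x i)) =
      (fun j => W.map (prj X m j) ((x ∘ σ.symm) j)) ∘ σ := by
    funext i
    simp [Function.comp]
  rw [h1]
  exact oprod_perm (sd_sq _ _) σ (eComm_map (l := 0) _ (fun i => hx _))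

end Pool.Agent.Q67.Det
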